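import Pool.Agent.Lib_helper90.QW.Tilt

/-!
# The acceptance probability has Fourier degree at most `2 p r`
-/

set_option autoImplicit false
set_option linter.unusedSectionVars false

open Finset

namespace Pool.Agent.Lib_helper90.QW

open Pool.Agent.Lib_helper8.QAA
open Pool.Agent.Lib_helper90.QPc.H8 (LowDeg)

variable {I A : Type} [Fintype I] [DecidableEq I] [Fintype A] {p : ℕ}

/-- The functions depending on at most `d` coordinates. -/
def junta (I : Type) (d : ℕ) : Set ((I → Bool) → ℂ) :=
  {g | ∃ S : Finset I, S.card ≤ d ∧ ∀ x y : I → Bool, (∀ i ∈ S, x i = y i) → g x = g y}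

/-- The functions of degree at most `d`. -/
def Jd (I : Type) (d : ℕ) : Submodule ℂ ((I → Bool) → ℂ) := Submodule.span ℂ (junta I d)

lemma Jd_mono {a b : ℕ} (h : a ≤ b) : Jd I a ≤ Jd I b :=
  Submodule.span_mono fun _ ⟨S, h1, h2⟩ => ⟨S, h1.trans h, h2⟩

lemma junta_mem {d : ℕ} {g : (I → Bool) → ℂ} (S : Finset I) (h : S.card ≤ d)
    (h2 : ∀ x y : I → Bool, (∀ i ∈ S, x i = y i) → g x = g y) : g ∈ Jd I d :=
  Submodule.subset_span ⟨S, h, h2⟩

lemma Jd_mul {a b : ℕ} {g h : (I → Bool) → ℂ} (hg : g ∈ Jd I a) (hh : h ∈ Jd I b) :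
    (fun x => g x * h x) ∈ Jd I (a + b) := by
  unfold Jd at hg
  induction hg using Submodule.span_induction with
  | mem g hg' =>
    obtain ⟨S, hS1, hS2⟩ := hg'
    unfold Jd at hh
    induction hh using Submodule.span_induction with
    | mem h hh' =>
      obtain ⟨T, hT1, hT2⟩ := hh'
      refine junta_mem (S ∪ T) ((Finset.card_union_le _ _).trans (by omega)) fun x y hxy => ?_
      rw [hS2 x y fun i hi => hxy i (Finset.mem_union_left _ hi),
        hT2 x y fun i hi => hxy i (Finset.mem_union_right _ hi)]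
    | zero =>
      have : (fun x => g x * (0 : (I → Bool) → ℂ) x) = 0 := by funext x; simp
      rw [this]
      exact Submodule.zero_mem _
    | add h1 h2 _ _ ih1 ih2 =>
      have : (fun x => g x * (h1 + h2) x) = (fun x => g x * h1 x) + fun x => g x * h2 x := by
        funext x
        simp only [Pi.add_apply]
        ring
      rw [this]
      exact Submodule.add_mem _ ih1 ih2
    | smul c h _ ih =>
      have : (fun x => g x * (c • h) x) = c • fun x => g x * h x := by
        funext x
        simp only [Pi.smul_apply, smul_eq_mul]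
        ring
      rw [this]
      exact Submodule.smul_mem _ _ ih
  | zero =>
    have : (fun x => (0 : (I → Bool) → ℂ) x * h x) = 0 := by funext x; simp
    rw [this]
    exact Submodule.zero_mem _
  | add g1 g2 _ _ ih1 ih2 =>
    have : (fun x => (g1 + g2) x * h x) = (fun x => g1 x * h x) + fun x => g2 x * h x := by
      funext x
      simp only [Pi.add_apply]
      ring
    rw [this]
    exact Submodule.add_mem _ ih1 ih2
  | smul c g _ ih =>
    have : (fun x => (c • g) x * h x) = c • fun x => g x * h x := by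
      funext x
      simp only [Pi.smul_apply, smul_eq_mul]
      ring
    rw [this]
    exact Submodule.smul_mem _ _ ih

lemma Jd_conj {a : ℕ} {g : (I → Bool) → ℂ} (hg : g ∈ Jd I a) :
    (fun x => (starRingEnd ℂ) (g x)) ∈ Jd I a := by
  unfold Jd at hg
  induction hg using Submodule.span_induction with
  | mem g hg' =>
    obtain ⟨S, hS1, hS2⟩ := hg'
    exact junta_mem S hS1 fun x y hxy => by rw [hS2 x y hxy]
  | zero =>
    have : (fun x => (starRingEnd ℂ) ((0 : (I → Bool) → ℂ) x)) = 0 := by funext x; simp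
    rw [this]
    exact Submodule.zero_mem _
  | add g1 g2 _ _ ih1 ih2 =>
    have : (fun x => (starRingEnd ℂ) ((g1 + g2) x)) =
        (fun x => (starRingEnd ℂ) (g1 x)) + fun x => (starRingEnd ℂ) (g2 x) := by
      funext x
      simp only [Pi.add_apply, map_add]
    rw [this]
    exact Submodule.add_mem _ ih1 ih2
  | smul c g _ ih =>
    have : (fun x => (starRingEnd ℂ) ((c • g) x)) =
        (starRingEnd ℂ) c • fun x => (starRingEnd ℂ) (g x) := by
      funext x
      simp only [Pi.smul_apply, smul_eq_mul, map_mul]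
    rw [this]
    exact Submodule.smul_mem _ _ ih

lemma state_mem_Jd (Q : Algorithm I A p) (s : ℕ) :
    ∀ a, (fun x => Q.state s x a) ∈ Jd I (p * s) := by
  classical
  induction s with
  | zero =>
    intro a
    exact junta_mem ∅ (by simp) fun x y _ => rfl
  | succ s ih =>
    intro a
    have h1 : (fun x => Q.state (s + 1) x a) =
        ∑ b, (Q.step s (EuclideanSpace.single b 1) a) •
          fun x => Q.phase b x * Q.state s x b := by
      funext x
      rw [Finset.sum_apply]
      show Q.step s (Q.oracle x (Q.state s x)) a = _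
      rw [clm_apply (Q.step s) (Q.oracle x (Q.state s x)) a]
      refine Finset.sum_congr rfl fun b _ => ?_
      rw [Pi.smul_apply, smul_eq_mul]
      rfl
    rw [h1]
    refine Submodule.sum_mem _ fun b _ => Submodule.smul_mem _ _ ?_
    have h2 : Q.phase b ∈ Jd I p :=
      junta_mem (Q.query b) (Q.card_query_le b) fun x y hxy => Q.phase_congr b x y hxy
    have h3 := Jd_mul h2 (ih b)
    rw [show p * (s + 1) = p + p * s by ring]
    exact h3

lemma prob_mem_Jd (Q : Algorithm I A p) (r : ℕ) :
    (fun x => ((Q.prob r x : ℝ) : ℂ)) ∈ Jd I (2 * p * r) := by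
  have h1 : (fun x => ((Q.prob r x : ℝ) : ℂ)) =
      ∑ a ∈ Q.accept, fun x => (starRingEnd ℂ) (Q.state r x a) * Q.state r x a := by
    funext x
    rw [Finset.sum_apply]
    unfold Algorithm.prob
    rw [Complex.ofReal_sum]
    refine Finset.sum_congr rfl fun a _ => ?_
    rw [Complex.conj_mul']
    norm_cast
  rw [h1]
  refine Submodule.sum_mem _ fun a _ => ?_
  have h2 := state_mem_Jd Q r a
  have h3 := Jd_mul (Jd_conj h2) h2
  rw [show 2 * p * r = p * r + p * r by ring]
  exact h3

lemma sum_chi_Jd {d : ℕ} {g : (I → Bool) → ℂ} (hg : g ∈ Jd I d) {S : Finset I}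
    (hS : d < S.card) : ∑ x : I → Bool, g x * ((chi S x : ℝ) : ℂ) = 0 := by
  unfold Jd at hg
  induction hg using Submodule.span_induction with
  | mem g hg' =>
    obtain ⟨T, hT1, hT2⟩ := hg'
    obtain ⟨i, hi1, hi2⟩ : ∃ i ∈ S, i ∉ T := by
      by_contra hcon
      push Not at hcon
      have := Finset.card_le_card (fun i hi => hcon i hi : S ⊆ T)
      omega
    have h1 : ∑ x : I → Bool, g x * ((chi S x : ℝ) : ℂ) =
        ∑ x : I → Bool, g (flipEquiv i x) * ((chi S (flipEquiv i x) : ℝ) : ℂ) :=
      (Equiv.sum_comp (flipEquiv i) fun x => g x * ((chi S x : ℝ) : ℂ)).symm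
    have h2 : ∀ x, g (flipEquiv i x) * ((chi S (flipEquiv i x) : ℝ) : ℂ) =
        - (g x * ((chi S x : ℝ) : ℂ)) := by
      intro x
      have h3 : g (flipEquiv i x) = g x := by
        apply hT2
        intro j hj
        show Pool.Agent.Lib_helper8.QAA.flip i x j = x j
        rw [flip_apply_of_ne]
        rintro rfl
        exact hi2 hj
      have h4 : chi S (flipEquiv i x) = - chi S x := chi_flip_of_mem hi1 x
      rw [h3, h4]
      push_cast
      ring
    simp_rw [h2] at h1
    rw [Finset.sum_neg_distrib] at h1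
    have h3 : (2 : ℂ) * ∑ x : I → Bool, g x * ((chi S x : ℝ) : ℂ) = 0 := by
      linear_combination h1
    rcases mul_eq_zero.1 h3 with h4 | h4
    · norm_num at h4
    · exact h4
  | zero => simp
  | add g1 g2 _ _ ih1 ih2 =>
    have : ∀ x : I → Bool, (g1 + g2) x * ((chi S x : ℝ) : ℂ) =
        g1 x * ((chi S x : ℝ) : ℂ) + g2 x * ((chi S x : ℝ) : ℂ) := by
      intro x
      simp only [Pi.add_apply]
      ring
    simp_rw [this]
    rw [Finset.sum_add_distrib, ih1, ih2, add_zero]
  | smul c g _ ih =>
    have : ∀ x : I → Bool, (c • g) x * ((chi S x : ℝ) : ℂ) =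
        c * (g x * ((chi S x : ℝ) : ℂ)) := by
      intro x
      simp only [Pi.smul_apply, smul_eq_mul]
      ring
    simp_rw [this]
    rw [← Finset.mul_sum, ih, mul_zero]

/-- The acceptance probability has degree at most `2 p r`. -/
lemma lowDeg_prob (Q : Algorithm I A p) (r : ℕ) : LowDeg (2 * p * r) (Q.prob r) := by
  intro S hS
  have h1 := sum_chi_Jd (prob_mem_Jd Q r) hS
  have h2 : ∑ x : I → Bool, Q.prob r x * chi S x = 0 := by
    have h3 : ((∑ x : I → Bool, Q.prob r x * chi S x : ℝ) : ℂ) = 0 := by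
      push_cast
      exact_mod_cast h1
    exact_mod_cast h3
  show ((2 : ℝ) ^ (Fintype.card I))⁻¹ * ∑ x : I → Bool, Q.prob r x * chi S x = 0
  rw [h2, mul_zero]

end Pool.Agent.Lib_helper90.QW
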