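import Pool.Agent.Lib_helper90.QW.Level1
import Pool.Agent.Lib_helper90.QW.Degree
import Pool.Agent.Lib_helper90.QPc.VarFlow

/-!
# The flow of the query magnitudes under random restrictions
-/

set_option autoImplicit false
set_option linter.unusedSectionVars false

open Finset

namespace Pool.Agent.Lib_helper90.QW

open Pool.Agent.Lib_helper8.QAA hiding sg
open Pool.Agent.Lib_helper90.QPc.H8 (sg ev av res rs_mono rs_nonneg rs_add rs_mul_left rs_const
  av_sum av_mono av_nonneg av_const av_add av_mul_left)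
open Pool.Agent.Lib_helper90.QPc.H40 (rs russo gronwall)

variable {I A : Type} [Fintype I] [DecidableEq I] [Fintype A] {p : ℕ}

/-! ### The restricted algorithm -/

/-- The coordinates in `R` are fixed according to `z`. -/
noncomputable def restr (Q : Algorithm I A p) (R : Finset I) (z : I → Bool) :
    Algorithm I A p where
  query a := Q.query a \ R
  phase a x := Q.phase a fun i => if i ∈ R then z i else x i
  step := Q.step
  init := Q.init
  accept := Q.accept
  card_query_le a := (Finset.card_le_card Finset.sdiff_subset).trans (Q.card_query_le a)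
  norm_phase_le a x := Q.norm_phase_le a _
  phase_congr a x x' h := Q.phase_congr a _ _ fun j hj => by
    by_cases hjR : j ∈ R
    · simp [hjR]
    · simp only [hjR, if_false]
      exact h j (Finset.mem_sdiff.2 ⟨hj, hjR⟩)
  norm_step_le := Q.norm_step_le
  norm_init_le := Q.norm_init_le

lemma restr_state (Q : Algorithm I A p) (R : Finset I) (z x : I → Bool) (s : ℕ) :
    (restr Q R z).state s x = Q.state s fun i => if i ∈ R then z i else x i := by
  induction s with
  | zero => rfl
  | succ s ih =>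
    show Q.step s ((restr Q R z).oracle x ((restr Q R z).state s x)) =
      Q.step s (Q.oracle (fun i => if i ∈ R then z i else x i)
        (Q.state s fun i => if i ∈ R then z i else x i))
    rw [ih]
    rfl

lemma mm_restr (Q : Algorithm I A p) (R : Finset I) (z : I → Bool) (T : Finset A) (t : ℕ) :
    mm (restr Q R z) T t = av (res R z fun x => pm T (Q.state t x)) := by
  unfold mm
  simp_rw [restr_state]
  rfl

lemma lv_restr (Q : Algorithm I A p) (R : Finset I) (z : I → Bool) (T : Finset A) (t : ℕ)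
    (i : I) : lv (restr Q R z) T t i =
      av (Pool.Agent.Lib_helper90.QPc.H8.D i (res R z fun x => pm T (Q.state t x))) := by
  rw [← Pool.Agent.Lib_helper90.QPc.H8.av_sg_mul]
  unfold lv
  simp_rw [restr_state]
  rfl

lemma mm_restr_look_le (Q : Algorithm I A p) (R : Finset I) (z : I → Bool) (i : I) (t : ℕ) :
    mm (restr Q R z) ((restr Q R z).look i) t ≤ mm (restr Q R z) (Q.look i) t := by
  unfold mm
  apply ex_mono
  intro x
  unfold pm
  apply Finset.sum_le_sum_of_subset_of_nonneg
  · intro a ha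
    simp only [Algorithm.look, restr, Finset.mem_filter, Finset.mem_univ, true_and,
      Finset.mem_sdiff] at ha ⊢
    exact ha.1
  · intro a _ _
    positivity

/-- The collision functional. -/
noncomputable def Phi (Q P : Algorithm I A p) (r : ℕ) : ℝ :=
  ∑ t ∈ Finset.range r, ∑ j, mm Q (P.look j) t ^ 2

lemma Phi_nonneg (Q P : Algorithm I A p) (r : ℕ) : 0 ≤ Phi Q P r :=
  Finset.sum_nonneg fun _ _ => Finset.sum_nonneg fun _ _ => sq_nonneg _

/-- The rate. -/
noncomputable def rate (p r : ℕ) : ℝ := 16 * Real.log (1 + 4 * p * r ^ 3) + 1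

lemma rate_ge_one (p r : ℕ) : 1 ≤ rate p r := by
  unfold rate
  have : 0 ≤ Real.log (1 + 4 * (p : ℝ) * (r : ℝ) ^ 3) := Real.log_nonneg (by
    have : 0 ≤ 4 * (p : ℝ) * (r : ℝ) ^ 3 := by positivity
    linarith)
  linarith

/-- The local inequality for restrictions, summed over the rounds. -/
lemma sum_lv_restr_le (Q : Algorithm I A p) (hp : 1 ≤ p) {r : ℕ} (hr : 1 ≤ r) (R : Finset I)
    (z : I → Bool) :
    ∑ t ∈ Finset.range r, ∑ j, ∑ i, lv (restr Q R z) (Q.look j) t i ^ 2 ≤
      rate p r * Phi (restr Q R z) Q r := by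
  have hp0 : (1 : ℝ) ≤ p := by exact_mod_cast hp
  have hr0 : (1 : ℝ) ≤ r := by exact_mod_cast hr
  set K : ℝ := 4 * p * r ^ 3 with hK
  have hK0 : 0 < K := by positivity
  set F : ℕ → ℝ := fun t => ∑ j, mm (restr Q R z) (Q.look j) t ^ 2 with hF
  have hF0 : ∀ t, 0 ≤ F t := fun t => Finset.sum_nonneg fun _ _ => sq_nonneg _
  have hsq : √(p * K) ≤ 2 * p * r ^ 2 := by
    rw [Real.sqrt_le_left (by positivity), hK]
    have h1 : (r : ℝ) ^ 3 ≤ (r : ℝ) ^ 4 := pow_le_pow_right₀ hr0 (by norm_num)
    calc (p : ℝ) * (4 * p * r ^ 3) = 4 * (p : ℝ) ^ 2 * r ^ 3 := by ring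
      _ ≤ 4 * (p : ℝ) ^ 2 * r ^ 4 := by gcongr
      _ = _ := by ring
  have h1 : ∀ t ∈ Finset.range r, ∑ j, ∑ i, lv (restr Q R z) (Q.look j) t i ^ 2 ≤
      16 * Real.log (1 + 4 * p * r ^ 3) * F t + 1 / r * ∑ t' ∈ Finset.range r, F t' := by
    intro t ht
    have ht' : (t : ℝ) ≤ r := by exact_mod_cast (Finset.mem_range.1 ht).le
    have h2 := local_ineq (restr Q R z) Q.look (μ := p) (by positivity)
      (fun φ => sum_pm_look Q φ) t hK0
    refine h2.trans (add_le_add ?_ ?_)
    · apply mul_le_mul_of_nonneg_right _ (hF0 t)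
      have h3 : Real.log (1 + 2 * t * √(p * K)) ≤ Real.log (1 + 4 * p * r ^ 3) := by
        apply Real.log_le_log (by positivity)
        calc 1 + 2 * (t : ℝ) * √(p * K) ≤ 1 + 2 * r * (2 * p * r ^ 2) := by gcongr
          _ = _ := by ring
      linarith
    · have h3 : ∑ t' ∈ Finset.range t, ∑ i,
          mm (restr Q R z) ((restr Q R z).look i) t' ^ 2 ≤ ∑ t' ∈ Finset.range r, F t' := by
        calc _ ≤ ∑ t' ∈ Finset.range t, F t' := by
              refine Finset.sum_le_sum fun t' _ => Finset.sum_le_sum fun i _ => ?_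
              have := mm_restr_look_le Q R z i t'
              have h0 := mm_nonneg (restr Q R z) ((restr Q R z).look i) t'
              gcongr
          _ ≤ _ := Finset.sum_le_sum_of_subset_of_nonneg
              (Finset.range_subset_range.2 (Finset.mem_range.1 ht).le) fun t' _ _ => hF0 t'
      have h4 : 4 * (p : ℝ) * t ^ 2 / K ≤ 1 / r := by
        rw [div_le_div_iff₀ hK0 (by positivity), hK]
        calc 4 * (p : ℝ) * t ^ 2 * r ≤ 4 * (p : ℝ) * r ^ 2 * r := by gcongr
          _ = _ := by ring
      exact mul_le_mul h4 h3 (Finset.sum_nonneg fun _ _ => Finset.sum_nonneg fun _ _ =>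
        sq_nonneg _) (by positivity)
  refine (Finset.sum_le_sum h1).trans (le_of_eq ?_)
  rw [Finset.sum_add_distrib, ← Finset.mul_sum, Finset.sum_const, Finset.card_range,
    nsmul_eq_mul]
  unfold rate Phi
  simp only [hF]
  field_simp

/-- The mean collision functional at density `ρ`. -/
noncomputable def CF (Q : Algorithm I A p) (r : ℕ) (ρ : ℝ) : ℝ :=
  rs ρ fun R => av fun z => Phi (restr Q R z) Q r

lemma CF_deriv (Q : Algorithm I A p) (hp : 1 ≤ p) {r : ℕ} (hr : 1 ≤ r) {ρ : ℝ}
    (hρ : ρ ∈ Set.Ico (0 : ℝ) 1) :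
    ∃ F', HasDerivAt (CF Q r) F' ρ ∧ (1 - ρ) * F' ≤ rate p r * CF Q r ρ + 0 := by
  obtain ⟨F', h1, h2⟩ := russo (fun R => av fun z => Phi (restr Q R z) Q r) hρ.2
  refine ⟨F', h1, ?_⟩
  rw [h2, add_zero]
  unfold CF
  rw [← rs_mul_left]
  refine rs_mono hρ.1 hρ.2.le fun R => ?_
  have h3 : ∀ R : Finset I, (av fun z => Phi (restr Q R z) Q r) =
      ∑ t ∈ Finset.range r, ∑ j, av fun z =>
        av (res R z fun x => pm (Q.look j) (Q.state t x)) ^ 2 := by
    intro R
    unfold Phi
    simp_rw [mm_restr]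
    rw [av_sum]
    refine Finset.sum_congr rfl fun t _ => ?_
    rw [av_sum]
  have h4 : ∀ i ∈ Rᶜ, (av fun z => Phi (restr Q (insert i R) z) Q r) -
      (av fun z => Phi (restr Q R z) Q r) =
      av fun z => ∑ t ∈ Finset.range r, ∑ j, lv (restr Q R z) (Q.look j) t i ^ 2 := by
    intro i hi
    rw [h3, h3, ← Finset.sum_sub_distrib, av_sum]
    refine Finset.sum_congr rfl fun t _ => ?_
    rw [← Finset.sum_sub_distrib, av_sum]
    refine Finset.sum_congr rfl fun j _ => ?_
    rw [Pool.Agent.Lib_helper90.QPc.H83.step_mean _ (Finset.mem_compl.1 hi), add_sub_cancel_left]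
    simp_rw [lv_restr]
  rw [Finset.sum_congr rfl h4, ← av_sum, ← av_mul_left]
  refine av_mono fun z => ?_
  refine le_trans ?_ (sum_lv_restr_le Q hp hr R z)
  calc ∑ i ∈ Rᶜ, ∑ t ∈ Finset.range r, ∑ j, lv (restr Q R z) (Q.look j) t i ^ 2
      ≤ ∑ i, ∑ t ∈ Finset.range r, ∑ j, lv (restr Q R z) (Q.look j) t i ^ 2 :=
        Finset.sum_le_sum_of_subset_of_nonneg (Finset.subset_univ _) fun _ _ _ =>
          Finset.sum_nonneg fun _ _ => Finset.sum_nonneg fun _ _ => sq_nonneg _
    _ = _ := by
        rw [Finset.sum_comm]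
        refine Finset.sum_congr rfl fun t _ => ?_
        rw [Finset.sum_comm]

lemma rs_zero (F : Finset I → ℝ) : rs 0 F = F ∅ := by
  unfold rs
  rw [Finset.sum_eq_single ∅]
  · simp
  · intro R _ hR
    have : R.card ≠ 0 := fun h => hR (Finset.card_eq_zero.1 h)
    rw [zero_pow this]
    ring
  · simp

lemma CF_zero (Q : Algorithm I A p) (r : ℕ) : CF Q r 0 = Phi Q Q r := by
  unfold CF
  rw [rs_zero]
  have h1 : ∀ z : I → Bool, Phi (restr Q ∅ z) Q r = Phi Q Q r := by
    intro z
    unfold Phi mm
    simp_rw [restr_state]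
    simp
  simp_rw [h1]
  exact av_const _

lemma CF_le (Q : Algorithm I A p) (hp : 1 ≤ p) {r : ℕ} (hr : 1 ≤ r) {ρ : ℝ}
    (hρ : ρ ∈ Set.Ico (0 : ℝ) 1) :
    CF Q r ρ ≤ Phi Q Q r * (1 - ρ) ^ (-rate p r) := by
  have hA : 0 < rate p r := lt_of_lt_of_le one_pos (rate_ge_one p r)
  have h := gronwall (F := CF Q r) (A := rate p r) (B := 0) hA
    (fun ρ hρ => CF_deriv Q hp hr hρ) hρ
  rwa [zero_div, add_zero, add_zero, CF_zero] at h

/-! ### The light step -/

lemma sum_lv_sq_le_one (Q : Algorithm I A p) (T : Finset A) (t : ℕ) :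
    ∑ i, lv Q T t i ^ 2 ≤ 1 := by
  have h1 : ∀ i, lv Q T t i = coef (fun x => pm T (Q.state t x)) {i} := by
    intro i
    unfold lv coef ex chi
    congr 1
    refine Finset.sum_congr rfl fun x _ => ?_
    rw [Finset.prod_singleton, mul_comm]
    rfl
  simp_rw [h1]
  have h2 : ∑ i : I, coef (fun x => pm T (Q.state t x)) {i} ^ 2 =
      ∑ S ∈ (Finset.univ : Finset I).image (fun i => ({i} : Finset I)),
        coef (fun x => pm T (Q.state t x)) S ^ 2 := by
    rw [Finset.sum_image]
    intro i _ j _ hij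
    exact Finset.singleton_injective hij
  rw [h2]
  calc _ ≤ ∑ S : Finset I, coef (fun x => pm T (Q.state t x)) S ^ 2 :=
        Finset.sum_le_sum_of_subset_of_nonneg (Finset.subset_univ _) fun _ _ _ => sq_nonneg _
    _ = ex (fun x => pm T (Q.state t x) ^ 2) := parseval_sq _
    _ ≤ ex (fun _ => 1) := by
        apply ex_mono
        intro x
        have h3 : pm T (Q.state t x) ≤ 1 := by
          refine (pm_le _ _).trans ?_
          have := norm_state_le Q t x
          have h0 := norm_nonneg (Q.state t x)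
          nlinarith
        have h4 := pm_nonneg T (Q.state t x)
        nlinarith
    _ = 1 := ex_const _

/-- **The light step.** -/
lemma light_step (Q : Algorithm I A p) (T : Finset A) (t : ℕ) {B : ℝ}
    (hB : 0 ≤ B) (hl : ∀ i, ∀ t' < t, mm Q (Q.look i) t' ≤ B) :
    ∑ i, lv Q T t i ^ 2 ≤ 128 * t ^ 2 * p * B := by
  set V := ∑ i, lv Q T t i ^ 2 with hV
  have hV0 : 0 ≤ V := Finset.sum_nonneg fun _ _ => sq_nonneg _
  have hV1 : V ≤ 1 := sum_lv_sq_le_one Q T t
  have ht0 : (0 : ℝ) ≤ t := by positivity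
  have hp0 : (0 : ℝ) ≤ p := by positivity
  rcases le_or_gt (1 / 4) ((t : ℝ) ^ 2 * p * B) with hbig | hsmall
  · linarith
  set m := mm Q T t with hm
  have hm1 : m ≤ 1 := by
    rw [hm]
    unfold mm
    have : ex (fun x => pm T (Q.state t x)) ≤ ex (fun _ : I → Bool => (1 : ℝ)) := by
      apply ex_mono
      intro x
      refine (pm_le _ _).trans ?_
      have := norm_state_le Q t x
      have h0 := norm_nonneg (Q.state t x)
      nlinarith
    rwa [ex_const] at this
  rcases (mm_nonneg Q T t).eq_or_lt with h0 | h0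
  · have h1 : ∀ i, lv Q T t i ^ 2 = 0 := by
      intro i
      have h2 := abs_lv_le Q T t i
      rw [← h0] at h2
      have h3 : lv Q T t i = 0 := abs_nonpos_iff.1 h2
      rw [h3]
      norm_num
    rw [hV]
    simp_rw [h1]
    rw [Finset.sum_const_zero]
    positivity
  · rw [← hm] at h0
    set b : I → ℝ := fun i => lv Q T t i / 2 with hb
    have hb1 : ∀ i, |b i| ≤ 1 / 2 := by
      intro i
      simp only [hb]
      rw [abs_div, abs_of_pos (by norm_num : (0 : ℝ) < 2)]
      have h1 := abs_lv_le Q T t i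
      linarith
    have hj := Pool.Agent.Lib_helper90.QPc.H96.jensen (h := fun x => pm T (Q.state t x))
      (fun x => pm_nonneg _ _) hb1 h0
    have hsum : ∑ i, b i * (lv Q T t i / m) - ∑ i, b i ^ 2 = V / (2 * m) - V / 4 := by
      rw [hV, Finset.sum_div, Finset.sum_div]
      congr 1
      · refine Finset.sum_congr rfl fun i _ => ?_
        simp only [hb]
        field_simp
      · refine Finset.sum_congr rfl fun i _ => ?_
        simp only [hb]
        ring
    have hj' : m * Real.exp (V / (2 * m) - V / 4) ≤ ev b (fun x => pm T (Q.state t x)) := by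
      rw [← hsum]
      exact hj
    have h2 : m + V / 4 ≤ ev b (fun x => pm T (Q.state t x)) := by
      refine le_trans ?_ hj'
      have h3 := Real.add_one_le_exp (V / (2 * m) - V / 4)
      calc m + V / 4 ≤ m * (V / (2 * m) - V / 4 + 1) := by
            have e1 : m * (V / (2 * m)) = V / 2 := by field_simp
            have e2 : m * (V / (2 * m) - V / 4 + 1) = V / 2 - m * V / 4 + m := by
              rw [mul_add, mul_sub, e1]
              ring
            rw [e2]
            nlinarith
        _ ≤ _ := mul_le_mul_of_nonneg_left h3 h0.le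
    have ht := tilt Q (b := b) (fun i => (hb1 i).trans (by norm_num)) T t
    set δ : ℝ := t * √(p * B * V / 2) with hδ
    have hδ0 : 0 ≤ δ := by positivity
    have h4 : ∑ t' ∈ Finset.range t,
        √(2 * p * ∑ i, b i ^ 2 * ex (fun x => pm (Q.look i) (Q.state t' x))) ≤ δ := by
      have h5 : ∀ t' ∈ Finset.range t,
          √(2 * p * ∑ i, b i ^ 2 * ex (fun x => pm (Q.look i) (Q.state t' x))) ≤
          √(p * B * V / 2) := by
        intro t' ht'
        apply Real.sqrt_le_sqrt
        have h6 : ∑ i, b i ^ 2 * ex (fun x => pm (Q.look i) (Q.state t' x)) ≤ V / 4 * B := by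
          rw [hV, Finset.sum_div, Finset.sum_mul]
          refine Finset.sum_le_sum fun i _ => ?_
          have e1 : b i ^ 2 = lv Q T t i ^ 2 / 4 := by simp only [hb]; ring
          rw [e1]
          exact mul_le_mul_of_nonneg_left (hl i t' (Finset.mem_range.1 ht')) (by positivity)
        calc 2 * (p : ℝ) * ∑ i, b i ^ 2 * ex (fun x => pm (Q.look i) (Q.state t' x))
            ≤ 2 * p * (V / 4 * B) := by gcongr
          _ = _ := by ring
      refine (Finset.sum_le_sum h5).trans (le_of_eq ?_)
      rw [Finset.sum_const, Finset.card_range, nsmul_eq_mul]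
    have h5 : m + V / 4 ≤ (√m + δ) ^ 2 := by
      have h6 : √(ev b (fun x => pm T (Q.state t x))) ≤ √m + δ :=
        ht.trans (add_le_add le_rfl h4)
      have h7 : 0 ≤ ev b (fun x => pm T (Q.state t x)) := by linarith
      calc m + V / 4 ≤ ev b (fun x => pm T (Q.state t x)) := h2
        _ = √(ev b (fun x => pm T (Q.state t x))) ^ 2 := (Real.sq_sqrt h7).symm
        _ ≤ _ := by gcongr
    have hδ2 : δ ^ 2 = t ^ 2 * p * B * V / 2 := by
      rw [hδ, mul_pow, Real.sq_sqrt (by positivity)]
      ring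
    have hsm1 : √m ≤ 1 := Real.sqrt_le_one.2 hm1
    have h6 : (√m + δ) ^ 2 = m + 2 * √m * δ + δ ^ 2 := by
      rw [add_sq, Real.sq_sqrt h0.le]
    have h7 : V / 8 ≤ 2 * δ := by
      have h8 : δ ^ 2 ≤ V / 8 := by
        rw [hδ2]
        nlinarith
      have h9 : 2 * √m * δ ≤ 2 * δ := by nlinarith
      linarith
    have h8 : V ^ 2 ≤ 128 * t ^ 2 * p * B * V := by
      have h9 : (V / 8) ^ 2 ≤ (2 * δ) ^ 2 := by gcongr
      rw [mul_pow 2 δ, hδ2] at h9
      linarith
    rcases hV0.eq_or_lt with h9 | h9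
    · rw [← h9]
      positivity
    · have h10 : V * V ≤ (128 * t ^ 2 * p * B) * V := by rw [← sq]; exact h8
      exact le_of_mul_le_mul_right h10 h9

/-- The variance of an algorithm with light queries. -/
lemma variance_light' (Q : Algorithm I A p) (hp : 1 ≤ p) {r : ℕ} (hr : 1 ≤ r) {θ : ℝ}
    (hθ : 0 < θ) (hl : ∀ t < r, ∀ j, mm Q (Q.look j) t ≤ θ) :
    ex (fun x => Q.prob r x ^ 2) - ex (Q.prob r) ^ 2 ≤
      2 * √θ * (512 * p ^ 2 * r ^ 3 * √(r * p) * (4 * p * r) ^ (rate p r / 2)) := by
  have hp0 : (1 : ℝ) ≤ p := by exact_mod_cast hp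
  have hr0 : (1 : ℝ) ≤ r := by exact_mod_cast hr
  set D : ℝ := 2 * p * r with hD
  have hD2 : 2 ≤ D := by
    rw [hD]
    nlinarith
  have hDp : 0 < D := by linarith
  set ρ0 : ℝ := 1 - 1 / (2 * D) with hρ0
  have hinv : 1 / (2 * D) ≤ 1 / 2 := by
    apply one_div_le_one_div_of_le (by norm_num); linarith
  have hinv0 : 0 < 1 / (2 * D) := by positivity
  have hρ00 : 0 ≤ ρ0 := by rw [hρ0]; linarith
  have hρ01 : ρ0 < 1 := by rw [hρ0]; linarith
  have hrate := rate_ge_one p r
  -- initial value
  have hPhi : Phi Q Q r ≤ r * p * θ := by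
    unfold Phi
    calc ∑ t ∈ Finset.range r, ∑ j, mm Q (Q.look j) t ^ 2
        ≤ ∑ t ∈ Finset.range r, p * θ := by
          refine Finset.sum_le_sum fun t ht => ?_
          calc ∑ j, mm Q (Q.look j) t ^ 2 ≤ ∑ j, mm Q (Q.look j) t * θ := by
                refine Finset.sum_le_sum fun j _ => ?_
                rw [sq]
                exact mul_le_mul_of_nonneg_left (hl t (Finset.mem_range.1 ht) j)
                  (mm_nonneg _ _ _)
            _ = (∑ j, mm Q (Q.look j) t) * θ := by rw [Finset.sum_mul]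
            _ ≤ p * θ := by
                apply mul_le_mul_of_nonneg_right _ hθ.le
                unfold mm
                rw [← ex_sum']
                calc ex (fun x => ∑ j, pm (Q.look j) (Q.state t x)) ≤ ex (fun _ => (p : ℝ)) := by
                      apply ex_mono
                      intro x
                      refine (sum_pm_look Q _).trans ?_
                      have := norm_state_le Q t x
                      have h0 := norm_nonneg (Q.state t x)
                      have h1 : ‖Q.state t x‖ ^ 2 ≤ 1 := by nlinarith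
                      calc (p : ℝ) * ‖Q.state t x‖ ^ 2 ≤ p * 1 := by gcongr
                        _ = p := mul_one _
                  _ = p := ex_const _
      _ = _ := by rw [Finset.sum_const, Finset.card_range, nsmul_eq_mul]; ring
  set M : ℝ := r * p * θ * (2 * D) ^ rate p r with hM
  have hM0 : 0 < M := by
    have : 0 < (2 * D) ^ rate p r := Real.rpow_pos_of_pos (by positivity) _
    positivity
  have hCF : ∀ ρ ∈ Set.Icc (0 : ℝ) ρ0, CF Q r ρ ≤ M := by
    intro ρ hρ
    have hρ1 : ρ < 1 := lt_of_le_of_lt hρ.2 hρ01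
    refine (CF_le Q hp hr ⟨hρ.1, hρ1⟩).trans ?_
    have h4 : 1 / (2 * D) ≤ 1 - ρ := by
      have := hρ.2
      rw [hρ0] at this
      linarith
    have h5 : (1 - ρ) ^ (-rate p r) ≤ (2 * D) ^ rate p r := by
      calc (1 - ρ) ^ (-rate p r) ≤ (1 / (2 * D)) ^ (-rate p r) :=
            Real.rpow_le_rpow_of_nonpos hinv0 h4 (by linarith)
        _ = (2 * D) ^ rate p r := by
            rw [one_div, Real.inv_rpow (by positivity), Real.rpow_neg (by positivity), inv_inv]
    calc Phi Q Q r * (1 - ρ) ^ (-rate p r) ≤ (r * p * θ) * (2 * D) ^ rate p r := by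
          have : 0 ≤ (1 - ρ) ^ (-rate p r) := Real.rpow_nonneg (by linarith) _
          gcongr
      _ = M := rfl
  -- the variance flow
  set f : (I → Bool) → ℝ := Q.prob r with hf
  set G : Finset I → ℝ := fun S => av (fun z => av (res S z f) ^ 2) with hG
  set C0 : ℝ := 128 * r ^ 2 * p with hC0
  have hC00 : 0 < C0 := by positivity
  have hder : ∀ ρ ∈ Set.Icc (0 : ℝ) ρ0, ∃ F', HasDerivAt (fun ρ => rs ρ G) F' ρ ∧
      F' ≤ 2 * D * (C0 * √M) := by
    intro ρ hρ
    have hρ1 : ρ < 1 := lt_of_le_of_lt hρ.2 hρ01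
    obtain ⟨F', h1, h2⟩ := russo G hρ1
    refine ⟨F', h1, ?_⟩
    have hsM : 0 < √M := Real.sqrt_pos.2 hM0
    have h3 : (1 - ρ) * F' ≤ C0 * √M := by
      rw [h2]
      have h4 : ∀ (R : Finset I) (z : I → Bool),
          ∑ i, lv (restr Q R z) Q.accept r i ^ 2 ≤
            C0 * (Phi (restr Q R z) Q r / (2 * √M) + √M / 2) := by
        intro R z
        set Φ := Phi (restr Q R z) Q r with hΦ
        have hΦ0 : 0 ≤ Φ := Phi_nonneg _ _ _
        have h5 := light_step (restr Q R z) Q.accept r (B := √Φ) (Real.sqrt_nonneg _)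
          (fun i t' ht' => by
            refine (mm_restr_look_le Q R z i t').trans ?_
            apply Real.le_sqrt_of_sq_le
            rw [hΦ]
            unfold Phi
            calc mm (restr Q R z) (Q.look i) t' ^ 2
                ≤ ∑ j, mm (restr Q R z) (Q.look j) t' ^ 2 :=
                  Finset.single_le_sum (f := fun j => mm (restr Q R z) (Q.look j) t' ^ 2)
                    (fun _ _ => sq_nonneg _) (Finset.mem_univ i)
              _ ≤ _ := Finset.single_le_sum
                  (f := fun t => ∑ j, mm (restr Q R z) (Q.look j) t ^ 2)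
                  (fun _ _ => Finset.sum_nonneg fun _ _ => sq_nonneg _)
                  (Finset.mem_range.2 ht'))
        refine h5.trans ?_
        rw [hC0]
        apply mul_le_mul_of_nonneg_left _ (by positivity)
        have h6 : √Φ ^ 2 = Φ := Real.sq_sqrt hΦ0
        have h7 : Φ / (2 * √M) + √M / 2 = (√Φ ^ 2 + √M ^ 2) / (2 * √M) := by
          rw [h6]
          field_simp
        rw [h7, le_div_iff₀ (by positivity)]
        nlinarith [sq_nonneg (√Φ - √M)]
      calc rs ρ (fun S => ∑ i ∈ Sᶜ, (G (insert i S) - G S))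
          ≤ rs ρ (fun S => C0 * (1 / (2 * √M)) * (av fun z => Phi (restr Q S z) Q r) +
              C0 * (√M / 2)) := by
            refine rs_mono hρ.1 hρ1.le fun S => ?_
            calc ∑ i ∈ Sᶜ, (G (insert i S) - G S)
                = ∑ i ∈ Sᶜ, av (fun z => lv (restr Q S z) Q.accept r i ^ 2) := by
                  refine Finset.sum_congr rfl fun i hi => ?_
                  simp only [hG]
                  rw [Pool.Agent.Lib_helper90.QPc.H83.step_mean f (Finset.mem_compl.1 hi),
                    add_sub_cancel_left]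
                  simp_rw [lv_restr]
                  rfl
              _ ≤ ∑ i, av (fun z => lv (restr Q S z) Q.accept r i ^ 2) :=
                  Finset.sum_le_sum_of_subset_of_nonneg (Finset.subset_univ _)
                    fun i _ _ => av_nonneg fun z => sq_nonneg _
              _ = av (fun z => ∑ i, lv (restr Q S z) Q.accept r i ^ 2) := by rw [av_sum]
              _ ≤ av (fun z => C0 * (1 / (2 * √M)) * Phi (restr Q S z) Q r +
                    C0 * (√M / 2)) := by
                  refine av_mono fun z => ?_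
                  refine (h4 S z).trans (le_of_eq ?_)
                  ring
              _ = _ := by rw [av_add, av_const, av_mul_left]
        _ = C0 * (1 / (2 * √M)) * CF Q r ρ + C0 * (√M / 2) := by
            rw [rs_add, rs_const, rs_mul_left]
            rfl
        _ ≤ C0 * (1 / (2 * √M)) * M + C0 * (√M / 2) := by
            have := hCF ρ hρ
            gcongr
        _ = C0 * √M := by
            have h8 : M = √M * √M := (Real.mul_self_sqrt hM0.le).symm
            have h9 : 1 / (2 * √M) * M = √M / 2 := by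
              conv_lhs => rw [h8]
              rw [Real.sqrt_mul_self hsM.le]
              field_simp
            rw [mul_assoc, h9]
            ring
    have h4 : 1 / (2 * D) ≤ 1 - ρ := by
      have := hρ.2
      rw [hρ0] at this
      linarith
    by_contra hcon
    push Not at hcon
    have h5 : 0 < F' := lt_of_le_of_lt (by positivity) hcon
    have h6 : 1 / (2 * D) * F' ≤ (1 - ρ) * F' := mul_le_mul_of_nonneg_right h4 h5.le
    have h7 : 1 / (2 * D) * (2 * D * (C0 * √M)) < 1 / (2 * D) * F' :=
      mul_lt_mul_of_pos_left hcon hinv0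
    have h8 : 1 / (2 * D) * (2 * D * (C0 * √M)) = C0 * √M := by field_simp
    linarith
  -- mean value
  have hmv : rs ρ0 G - rs 0 G ≤ 2 * D * (C0 * √M) * (ρ0 - 0) := by
    have hc : ContinuousOn (fun ρ => rs ρ G) (Set.Icc (0 : ℝ) ρ0) := fun ρ hρ => by
      obtain ⟨F', h1, _⟩ := hder ρ hρ
      exact h1.continuousAt.continuousWithinAt
    have hd' : DifferentiableOn ℝ (fun ρ => rs ρ G) (interior (Set.Icc (0 : ℝ) ρ0)) :=
      fun ρ hρ => by
        obtain ⟨F', h1, _⟩ := hder ρ (interior_subset hρ)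
        exact h1.differentiableAt.differentiableWithinAt
    refine Convex.image_sub_le_mul_sub_of_deriv_le (convex_Icc (0 : ℝ) ρ0) hc hd' ?_ 0
      ⟨le_rfl, hρ00⟩ ρ0 ⟨hρ00, le_rfl⟩ hρ00
    intro ρ hρ
    obtain ⟨F', h1, h2⟩ := hder ρ (interior_subset hρ)
    rw [h1.deriv]; exact h2
  have hmv2 : rs ρ0 G - rs 0 G ≤ 2 * D * (C0 * √M) := by
    refine hmv.trans ?_
    have : 2 * D * (C0 * √M) * (ρ0 - 0) ≤ 2 * D * (C0 * √M) * 1 :=
      mul_le_mul_of_nonneg_left (by linarith) (by positivity)
    linarith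
  have hfour : ∀ ρ, rs ρ G = ∑ S : Finset I, ρ ^ S.card * coef f S ^ 2 :=
    fun ρ => Pool.Agent.Lib_helper90.QPc.H83.rs_mean_sq f ρ
  have hpar : ex (fun x => f x ^ 2) = ∑ S : Finset I, coef f S ^ 2 := (parseval_sq f).symm
  have hemp : ex f = coef f ∅ := (coef_empty f).symm
  have hDn : D = ((2 * p * r : ℕ) : ℝ) := by rw [hD]; push_cast; ring
  have hpow : (1 : ℝ) / 2 ≤ ρ0 ^ (2 * p * r) := by
    have h1 := one_add_mul_le_pow (a := -(1 / (2 * D))) (by linarith) (2 * p * r)
    have h2 : 1 + ((2 * p * r : ℕ) : ℝ) * -(1 / (2 * D)) = 1 / 2 := by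
      rw [← hDn]
      field_simp
      ring
    rw [h2] at h1
    rw [hρ0]
    calc (1 : ℝ) / 2 ≤ (1 + -(1 / (2 * D))) ^ (2 * p * r) := h1
      _ = _ := by ring
  have hlow : 1 / 2 * (ex (fun x => f x ^ 2) - ex f ^ 2) ≤ rs ρ0 G - rs 0 G := by
    rw [hfour, hfour, hpar, hemp, ← Finset.sum_sub_distrib]
    have h0 : ∀ g : Finset I → ℝ, ∑ S, g S = g ∅ + ∑ S ∈ univ.erase ∅, g S := fun g =>
      (Finset.add_sum_erase _ _ (Finset.mem_univ _)).symm
    rw [h0, h0]
    simp only [Finset.card_empty, pow_zero]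
    have h1 : ∀ S ∈ univ.erase (∅ : Finset I), 1 / 2 * coef f S ^ 2 ≤
        ρ0 ^ S.card * coef f S ^ 2 - 0 ^ S.card * coef f S ^ 2 := by
      intro S hS
      have hS' : S.card ≠ 0 := by
        rw [Finset.mem_erase] at hS
        exact fun h => hS.1 (Finset.card_eq_zero.1 h)
      rw [zero_pow hS', zero_mul, sub_zero]
      rcases le_or_gt S.card (2 * p * r) with h | h
      · apply mul_le_mul_of_nonneg_right _ (sq_nonneg _)
        exact hpow.trans (pow_le_pow_of_le_one hρ00 hρ01.le h)
      · have h3 : coef f S = 0 := lowDeg_prob Q r S h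
        rw [h3]
        simp
    have h2 := Finset.sum_le_sum h1
    rw [← Finset.mul_sum] at h2
    linarith
  have hsqM : √M = √θ * (√(r * p) * (4 * p * r) ^ (rate p r / 2)) := by
    rw [hM, show (2 * D) = 4 * p * r by rw [hD]; ring]
    have h4 : (0 : ℝ) ≤ 4 * p * r := by positivity
    have h5 : (4 * (p : ℝ) * r) ^ rate p r = ((4 * (p : ℝ) * r) ^ (rate p r / 2)) ^ 2 := by
      rw [← Real.rpow_natCast, ← Real.rpow_mul h4]
      congr 1
      push_cast
      ring
    rw [h5, Real.sqrt_mul (by positivity), Real.sqrt_sq (by positivity),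
      show (r : ℝ) * p * θ = θ * (r * p) by ring, Real.sqrt_mul hθ.le]
    ring
  calc ex (fun x => f x ^ 2) - ex f ^ 2 ≤ 2 * (2 * D * (C0 * √M)) := by linarith
    _ = _ := by
        rw [hsqM, hC0, hD]
        ring

end Pool.Agent.Lib_helper90.QW
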