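import Pool.Agent.Lib_helper90.QW.Tilt
import Pool.Agent.Lib_helper90.QPc.T2
import Pool.Agent.Lib_helper8.QABDyn

/-!
# The level-one inequality and the local inequality for quantum query algorithms
-/

set_option autoImplicit false
set_option linter.unusedSectionVars false

open Finset

namespace Pool.Agent.Lib_helper90.QW

open Pool.Agent.Lib_helper8.QAA hiding sg
open Pool.Agent.Lib_helper90.QPc.H8 (sg ev av)

variable {I A : Type} [Fintype I] [DecidableEq I] [Fintype A] {p : ℕ}

lemma av_eq_ex (f : (I → Bool) → ℝ) : av f = ex f := rfl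

/-- The mean magnitude. -/
noncomputable def mm (Q : Algorithm I A p) (T : Finset A) (t : ℕ) : ℝ :=
  ex (fun x => pm T (Q.state t x))

/-- The level-one coefficient of the magnitude. -/
noncomputable def lv (Q : Algorithm I A p) (T : Finset A) (t : ℕ) (i : I) : ℝ :=
  ex (fun x => sg (x i) * pm T (Q.state t x))

lemma mm_nonneg (Q : Algorithm I A p) (T : Finset A) (t : ℕ) : 0 ≤ mm Q T t :=
  ex_nonneg' fun _ => pm_nonneg _ _

lemma abs_lv_le (Q : Algorithm I A p) (T : Finset A) (t : ℕ) (i : I) :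
    |lv Q T t i| ≤ mm Q T t := by
  unfold lv mm
  refine (abs_ex_le _).trans (ex_mono fun x => ?_)
  rw [abs_mul, abs_sg', one_mul, abs_of_nonneg (pm_nonneg _ _)]

lemma half_le_exp {Y : ℝ} (_hY : 0 ≤ Y) : √(Y / 2) ≤ 2 * Real.exp (Y / 16) := by
  rw [Real.sqrt_le_left (by positivity), mul_pow, ← Real.exp_nat_mul]
  have h1 := Real.add_one_le_exp (((2 : ℕ) : ℝ) * (Y / 16))
  push_cast at h1 ⊢
  nlinarith

/-- **The level-one inequality.** -/
lemma level_one (Q : Algorithm I A p) (T : Finset A) (t : ℕ) (hm : 0 < mm Q T t) (S : Finset I)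
    {K : ℝ} (hK : 0 ≤ K) (hS : ∀ i ∈ S, ∀ t' < t, mm Q (Q.look i) t' ≤ K * mm Q T t) :
    ∑ i ∈ S, lv Q T t i ^ 2 ≤
      16 * Real.log (1 + 2 * t * √(p * K)) * mm Q T t ^ 2 := by
  classical
  set m := mm Q T t with hmdef
  set Y : ℝ := ∑ i ∈ S, (lv Q T t i / m) ^ 2 with hY
  have hY0 : 0 ≤ Y := Finset.sum_nonneg fun _ _ => sq_nonneg _
  set b : I → ℝ := fun i => if i ∈ S then lv Q T t i / m / 2 else 0 with hb
  have hb1 : ∀ i, |b i| ≤ 1 / 2 := by
    intro i
    simp only [hb]
    split_ifs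
    · rw [abs_div, abs_div, abs_of_pos hm, abs_of_pos (by norm_num : (0 : ℝ) < 2)]
      have h1 : |lv Q T t i| / m ≤ 1 := (div_le_one hm).2 (abs_lv_le Q T t i)
      linarith
    · simp
  have hsum1 : ∑ i, b i * (lv Q T t i / m) - ∑ i, b i ^ 2 = Y / 4 := by
    have e1 : ∑ i, b i * (lv Q T t i / m) = ∑ i ∈ S, (lv Q T t i / m) ^ 2 / 2 := by
      rw [← Finset.sum_subset (Finset.subset_univ S)]
      · refine Finset.sum_congr rfl fun i hi => ?_
        simp only [hb, if_pos hi]
        ring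
      · intro i _ hi
        simp only [hb, if_neg hi, zero_mul]
    have e2 : ∑ i, b i ^ 2 = ∑ i ∈ S, (lv Q T t i / m) ^ 2 / 4 := by
      rw [← Finset.sum_subset (Finset.subset_univ S)]
      · refine Finset.sum_congr rfl fun i hi => ?_
        simp only [hb, if_pos hi]
        ring
      · intro i _ hi
        simp only [hb, if_neg hi]
        norm_num
    rw [e1, e2, ← Finset.sum_div, ← Finset.sum_div, hY]
    ring
  have hsum2 : ∀ t' < t, ∑ i, b i ^ 2 * mm Q (Q.look i) t' ≤ Y / 4 * (K * m) := by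
    intro t' ht'
    have e1 : ∑ i, b i ^ 2 * mm Q (Q.look i) t' =
        ∑ i ∈ S, (lv Q T t i / m) ^ 2 / 4 * mm Q (Q.look i) t' := by
      rw [← Finset.sum_subset (Finset.subset_univ S)]
      · refine Finset.sum_congr rfl fun i hi => ?_
        simp only [hb, if_pos hi]
        ring
      · intro i _ hi
        simp only [hb, if_neg hi]
        norm_num
    rw [e1, hY, Finset.sum_div, Finset.sum_mul]
    refine Finset.sum_le_sum fun i hi => ?_
    exact mul_le_mul_of_nonneg_left (hS i hi t' ht') (by positivity)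
  have hj := Pool.Agent.Lib_helper90.QPc.H96.jensen (h := fun x => pm T (Q.state t x))
    (fun x => pm_nonneg _ _) hb1 hm
  have hj' : m * Real.exp (Y / 4) ≤ ev b (fun x => pm T (Q.state t x)) := by
    rw [← hsum1]
    exact hj
  have ht := tilt Q (b := b) (fun i => (hb1 i).trans (by norm_num)) T t
  have h3 : √m * Real.exp (Y / 8) ≤ √(ev b (fun x => pm T (Q.state t x))) := by
    apply Real.le_sqrt_of_sq_le
    rw [mul_pow, Real.sq_sqrt hm.le, ← Real.exp_nat_mul]
    refine le_trans (le_of_eq ?_) hj'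
    congr 2
    push_cast
    ring
  have h4 : ∑ t' ∈ Finset.range t,
      √(2 * p * ∑ i, b i ^ 2 * ex (fun x => pm (Q.look i) (Q.state t' x))) ≤
      t * (√m * (√(p * K) * √(Y / 2))) := by
    have h5 : ∀ t' ∈ Finset.range t,
        √(2 * p * ∑ i, b i ^ 2 * ex (fun x => pm (Q.look i) (Q.state t' x))) ≤
        √m * (√(p * K) * √(Y / 2)) := by
      intro t' ht'
      rw [← Real.sqrt_mul (by positivity), ← Real.sqrt_mul hm.le]
      apply Real.sqrt_le_sqrt
      have h6 := hsum2 t' (Finset.mem_range.1 ht')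
      unfold mm at h6
      calc 2 * (p : ℝ) * ∑ i, b i ^ 2 * ex (fun x => pm (Q.look i) (Q.state t' x))
          ≤ 2 * p * (Y / 4 * (K * m)) := by gcongr
        _ = m * (p * K * (Y / 2)) := by ring
    refine (Finset.sum_le_sum h5).trans (le_of_eq ?_)
    rw [Finset.sum_const, Finset.card_range, nsmul_eq_mul]
  have h5 : √m * Real.exp (Y / 8) ≤ √m * (1 + t * (√(p * K) * √(Y / 2))) := by
    calc √m * Real.exp (Y / 8) ≤ √(ev b (fun x => pm T (Q.state t x))) := h3
      _ ≤ _ := ht
      _ ≤ √m + t * (√m * (√(p * K) * √(Y / 2))) := add_le_add le_rfl h4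
      _ = _ := by ring
  have hsm : 0 < √m := Real.sqrt_pos.2 hm
  have h6 : Real.exp (Y / 8) ≤ 1 + t * (√(p * K) * √(Y / 2)) := le_of_mul_le_mul_left h5 hsm
  set E := Real.exp (Y / 16) with hE
  have hE1 : 1 ≤ E := Real.one_le_exp (by positivity)
  have hEE : Real.exp (Y / 8) = E * E := by
    rw [hE, ← Real.exp_add]
    congr 1
    ring
  have h7 : E * E ≤ E * (1 + 2 * t * √(p * K)) := by
    rw [← hEE]
    have h8 := half_le_exp hY0
    calc Real.exp (Y / 8) ≤ 1 + t * (√(p * K) * √(Y / 2)) := h6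
      _ ≤ 1 + t * (√(p * K) * (2 * E)) := by gcongr
      _ ≤ E + t * (√(p * K) * (2 * E)) := by linarith
      _ = _ := by ring
  have h8 : E ≤ 1 + 2 * t * √(p * K) := le_of_mul_le_mul_left h7 (by linarith)
  have h9 : Y ≤ 16 * Real.log (1 + 2 * t * √(p * K)) := by
    have h10 := Real.log_le_log (by positivity) h8
    rw [hE, Real.log_exp] at h10
    linarith
  have h10 : ∑ i ∈ S, lv Q T t i ^ 2 = Y * m ^ 2 := by
    rw [hY, Finset.sum_mul]
    refine Finset.sum_congr rfl fun i _ => ?_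
    field_simp
  rw [h10]
  gcongr

/-! ### The column bound -/

/-- The mean square change of the state. -/
noncomputable def dl (Q : Algorithm I A p) (T : Finset A) (t : ℕ) (i : I) : ℝ :=
  ex (fun x => pm T (Q.state t x - Q.state t (flip i x)))

lemma abs_pm_sub_le (T : Finset A) (φ φ' : EuclideanSpace ℂ A) :
    |pm T φ - pm T φ'| ≤ √(2 * (pm T φ + pm T φ')) * √(pm T (φ - φ')) := by
  have h1 : |pm T φ - pm T φ'| ≤ ∑ a ∈ T, (‖φ a‖ + ‖φ' a‖) * ‖(φ - φ') a‖ := by
    unfold pm
    rw [← Finset.sum_sub_distrib]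
    refine (Finset.abs_sum_le_sum_abs _ _).trans (Finset.sum_le_sum fun a _ => ?_)
    have h2 : ‖φ a‖ ^ 2 - ‖φ' a‖ ^ 2 = (‖φ a‖ + ‖φ' a‖) * (‖φ a‖ - ‖φ' a‖) := by ring
    rw [h2, abs_mul, abs_of_nonneg (by positivity)]
    gcongr
    exact abs_norm_sub_norm_le _ _
  refine h1.trans ((Real.sum_mul_le_sqrt_mul_sqrt _ _ _).trans ?_)
  have h3 : √(∑ a ∈ T, (‖φ a‖ + ‖φ' a‖) ^ 2) ≤ √(2 * (pm T φ + pm T φ')) := by
    apply Real.sqrt_le_sqrt
    unfold pm
    rw [← Finset.sum_add_distrib, Finset.mul_sum]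
    refine Finset.sum_le_sum fun a _ => ?_
    nlinarith [sq_nonneg (‖φ a‖ - ‖φ' a‖)]
  exact mul_le_mul_of_nonneg_right h3 (Real.sqrt_nonneg _)

lemma lv_sq_le (Q : Algorithm I A p) (T : Finset A) (t : ℕ) (i : I) :
    lv Q T t i ^ 2 ≤ mm Q T t * dl Q T t i := by
  have h1 : lv Q T t i = ex (fun x => (1 / 2) * (sg (x i) *
      (pm T (Q.state t x) - pm T (Q.state t (flip i x))))) := by
    have h2 : ex (fun x => sg (x i) * pm T (Q.state t (flip i x))) = - lv Q T t i := by
      have h3 := ex_flip (fun x => sg (x i) * pm T (Q.state t (flip i x))) i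
      rw [← h3]
      unfold lv
      rw [← neg_one_mul, ← ex_const_mul]
      congr 1
      funext x
      rw [Pool.Agent.Lib_helper8.QAA.flip_flip, sg_flip]
      ring
    rw [ex_const_mul]
    have h3 : (fun x => sg (x i) * (pm T (Q.state t x) - pm T (Q.state t (flip i x)))) =
        fun x => sg (x i) * pm T (Q.state t x) - sg (x i) * pm T (Q.state t (flip i x)) := by
      funext x
      ring
    rw [h3, ex_sub, h2]
    unfold lv
    ring
  have h2 : |lv Q T t i| ≤ ex (fun x => (1 / 2 * √(2 * (pm T (Q.state t x) +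
      pm T (Q.state t (flip i x))))) * √(pm T (Q.state t x - Q.state t (flip i x)))) := by
    rw [h1]
    refine (abs_ex_le _).trans (ex_mono fun x => ?_)
    rw [abs_mul, abs_mul, abs_sg', one_mul, abs_of_pos (by norm_num : (0 : ℝ) < 1 / 2), mul_assoc]
    exact mul_le_mul_of_nonneg_left (abs_pm_sub_le _ _ _) (by norm_num)
  have h3 := ex_cauchy (fun x => 1 / 2 * √(2 * (pm T (Q.state t x) +
      pm T (Q.state t (flip i x))))) (fun x => √(pm T (Q.state t x - Q.state t (flip i x))))
  have h4 : lv Q T t i ^ 2 = |lv Q T t i| ^ 2 := (sq_abs _).symm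
  rw [h4]
  refine (pow_le_pow_left₀ (abs_nonneg _) h2 2).trans (h3.trans (le_of_eq ?_))
  have e1 : ∀ x, (1 / 2 * √(2 * (pm T (Q.state t x) + pm T (Q.state t (flip i x))))) ^ 2 =
      (1 / 2) * pm T (Q.state t x) + (1 / 2) * pm T (Q.state t (flip i x)) := by
    intro x
    have := pm_nonneg T (Q.state t x)
    have := pm_nonneg T (Q.state t (flip i x))
    rw [mul_pow, Real.sq_sqrt (by positivity)]
    ring
  have e2 : ∀ x, √(pm T (Q.state t x - Q.state t (flip i x))) ^ 2 =
      pm T (Q.state t x - Q.state t (flip i x)) := fun x => Real.sq_sqrt (pm_nonneg _ _)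
  simp_rw [e1, e2]
  rw [ex_add, ex_const_mul, ex_const_mul, ex_flip (fun x => pm T (Q.state t x)) i]
  unfold mm dl
  ring

lemma ex_norm_sub_sq_le (Q : Algorithm I A p) (t : ℕ) (i : I) :
    ex (fun x => ‖Q.state t x - Q.state t (flip i x)‖ ^ 2) ≤
      4 * t * ∑ t' ∈ Finset.range t, mm Q (Q.look i) t' := by
  have h1 : ∀ x, ‖Q.state t x - Q.state t (flip i x)‖ ^ 2 ≤
      ∑ t' ∈ Finset.range t, (4 * t) * pm (Q.look i) (Q.state t' (flip i x)) := by
    intro x
    obtain ⟨B, hB1, hB2⟩ := state_sub Q x t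
    rw [hB2 i]
    calc ‖∑ s ∈ Finset.range t, B s (Q.w s i x)‖ ^ 2
        ≤ (∑ s ∈ Finset.range t, ‖Q.w s i x‖) ^ 2 := by
          have h2 : ‖∑ s ∈ Finset.range t, B s (Q.w s i x)‖ ≤
              ∑ s ∈ Finset.range t, ‖Q.w s i x‖ :=
            norm_sum_le_of_le _ fun s _ => hB1 s _
          gcongr
      _ ≤ ((Finset.range t).card : ℝ) * ∑ s ∈ Finset.range t, ‖Q.w s i x‖ ^ 2 :=
          sq_sum_le_card_mul_sum_sq
      _ ≤ _ := by
          rw [Finset.card_range, Finset.mul_sum]
          refine Finset.sum_le_sum fun s _ => ?_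
          have h3 := norm_w_sq Q s i x
          calc (t : ℝ) * ‖Q.w s i x‖ ^ 2 ≤ t * (4 * pm (Q.look i) (Q.state s (flip i x))) := by
                gcongr
            _ = _ := by ring
  refine (ex_mono h1).trans (le_of_eq ?_)
  rw [ex_sum', Finset.mul_sum]
  refine Finset.sum_congr rfl fun t' _ => ?_
  rw [ex_const_mul, ex_flip (fun x => pm (Q.look i) (Q.state t' x)) i]
  rfl

lemma sum_dl_le (Q : Algorithm I A p) {J : Type} [Fintype J] (T : J → Finset A) {μ : ℝ}
    (hμ : 0 ≤ μ) (hT : ∀ φ : EuclideanSpace ℂ A, ∑ j, pm (T j) φ ≤ μ * ‖φ‖ ^ 2) (t : ℕ) (i : I) :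
    ∑ j, dl Q (T j) t i ≤ 4 * μ * t * ∑ t' ∈ Finset.range t, mm Q (Q.look i) t' := by
  unfold dl
  rw [← ex_sum']
  calc ex (fun x => ∑ j, pm (T j) (Q.state t x - Q.state t (flip i x)))
      ≤ ex (fun x => μ * ‖Q.state t x - Q.state t (flip i x)‖ ^ 2) := ex_mono fun x => hT _
    _ = μ * ex (fun x => ‖Q.state t x - Q.state t (flip i x)‖ ^ 2) := ex_const_mul _ _
    _ ≤ μ * (4 * t * ∑ t' ∈ Finset.range t, mm Q (Q.look i) t') := by
        gcongr
        exact ex_norm_sub_sq_le Q t i
    _ = _ := by ring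

/-- **The local inequality.** -/
lemma local_ineq (Q : Algorithm I A p) {J : Type} [Fintype J] (T : J → Finset A) {μ : ℝ}
    (hμ : 0 ≤ μ) (hT : ∀ φ : EuclideanSpace ℂ A, ∑ j, pm (T j) φ ≤ μ * ‖φ‖ ^ 2) (t : ℕ)
    {K : ℝ} (hK : 0 < K) :
    ∑ j, ∑ i, lv Q (T j) t i ^ 2 ≤
      16 * Real.log (1 + 2 * t * √(p * K)) * ∑ j, mm Q (T j) t ^ 2 +
        4 * μ * t ^ 2 / K * ∑ t' ∈ Finset.range t, ∑ i, mm Q (Q.look i) t' ^ 2 := by
  classical
  set S : I → ℝ := fun i => ∑ t' ∈ Finset.range t, mm Q (Q.look i) t' with hS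
  have hS0 : ∀ i, 0 ≤ S i := fun i => Finset.sum_nonneg fun _ _ => mm_nonneg _ _ _
  have hlog : 0 ≤ 16 * Real.log (1 + 2 * t * √(p * K)) := by
    have : 0 ≤ Real.log (1 + 2 * t * √(p * K)) := Real.log_nonneg (by
      have : 0 ≤ 2 * (t : ℝ) * √(p * K) := by positivity
      linarith)
    positivity
  have key : ∀ j, ∑ i, lv Q (T j) t i ^ 2 ≤
      16 * Real.log (1 + 2 * t * √(p * K)) * mm Q (T j) t ^ 2 +
        ∑ i, S i / K * dl Q (T j) t i := by
    intro j
    have hd0 : ∀ i, 0 ≤ S i / K * dl Q (T j) t i := fun i =>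
      mul_nonneg (div_nonneg (hS0 i) hK.le) (ex_nonneg' fun _ => pm_nonneg _ _)
    rcases (mm_nonneg Q (T j) t).eq_or_lt with h0 | h0
    · have h1 : ∀ i, lv Q (T j) t i ^ 2 = 0 := by
        intro i
        have h2 := abs_lv_le Q (T j) t i
        rw [← h0] at h2
        have h3 : lv Q (T j) t i = 0 := abs_nonpos_iff.1 h2
        rw [h3]
        norm_num
      simp_rw [h1]
      rw [Finset.sum_const_zero]
      have h2 : 0 ≤ ∑ i, S i / K * dl Q (T j) t i := Finset.sum_nonneg fun i _ => hd0 i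
      have h3 : 0 ≤ 16 * Real.log (1 + 2 * t * √(p * K)) * mm Q (T j) t ^ 2 := by positivity
      linarith
    · set B : Finset I := Finset.univ.filter fun i =>
        ∀ t' < t, mm Q (Q.look i) t' ≤ K * mm Q (T j) t with hB
      rw [← Finset.sum_filter_add_sum_filter_not Finset.univ
        (fun i => ∀ t' < t, mm Q (Q.look i) t' ≤ K * mm Q (T j) t)]
      refine add_le_add ?_ ?_
      · exact level_one Q (T j) t h0 B hK.le fun i hi t' ht' =>
          (Finset.mem_filter.1 hi).2 t' ht'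
      · refine le_trans ?_ (Finset.sum_le_sum_of_subset_of_nonneg
          (Finset.subset_univ (Finset.univ.filter fun i =>
            ¬ ∀ t' < t, mm Q (Q.look i) t' ≤ K * mm Q (T j) t)) fun i _ _ => hd0 i)
        refine Finset.sum_le_sum fun i hi => ?_
        have h1 := (Finset.mem_filter.1 hi).2
        push Not at h1
        obtain ⟨t', ht', h2⟩ := h1
        have h3 : K * mm Q (T j) t ≤ S i := h2.le.trans
          (Finset.single_le_sum (f := fun t' => mm Q (Q.look i) t')
            (fun _ _ => mm_nonneg _ _ _) (Finset.mem_range.2 ht'))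
        have h4 : mm Q (T j) t ≤ S i / K := by
          rw [le_div_iff₀ hK]
          linarith
        refine (lv_sq_le Q (T j) t i).trans ?_
        exact mul_le_mul_of_nonneg_right h4 (ex_nonneg' fun _ => pm_nonneg _ _)
  calc ∑ j, ∑ i, lv Q (T j) t i ^ 2
      ≤ ∑ j, (16 * Real.log (1 + 2 * t * √(p * K)) * mm Q (T j) t ^ 2 +
        ∑ i, S i / K * dl Q (T j) t i) := Finset.sum_le_sum fun j _ => key j
    _ = 16 * Real.log (1 + 2 * t * √(p * K)) * ∑ j, mm Q (T j) t ^ 2 +
        ∑ i, S i / K * ∑ j, dl Q (T j) t i := by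
        rw [Finset.sum_add_distrib, ← Finset.mul_sum, Finset.sum_comm]
        simp_rw [Finset.mul_sum]
    _ ≤ _ := by
        refine add_le_add le_rfl ?_
        calc ∑ i, S i / K * ∑ j, dl Q (T j) t i
            ≤ ∑ i, S i / K * (4 * μ * t * S i) := by
              refine Finset.sum_le_sum fun i _ => ?_
              have := hS0 i
              exact mul_le_mul_of_nonneg_left (sum_dl_le Q T hμ hT t i) (by positivity)
          _ = 4 * μ * t / K * ∑ i, S i ^ 2 := by
              rw [Finset.mul_sum]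
              refine Finset.sum_congr rfl fun i _ => ?_
              ring
          _ ≤ 4 * μ * t / K * ∑ i, t * ∑ t' ∈ Finset.range t, mm Q (Q.look i) t' ^ 2 := by
              gcongr with i _
              have := sq_sum_le_card_mul_sum_sq (s := Finset.range t)
                (f := fun t' => mm Q (Q.look i) t')
              rw [Finset.card_range] at this
              exact this
          _ = _ := by
              rw [← Finset.mul_sum, Finset.sum_comm]
              ring

end Pool.Agent.Lib_helper90.QW
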