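import Pool.Agent.Lib_helper90.QW.Flow
import Pool.Agent.Lib_helper8.QABFinal

/-!
# The quasi-polynomial Aaronson-Ambainis inequality for quantum query algorithms
-/

set_option autoImplicit false
set_option linter.unusedSectionVars false

open Finset

namespace Pool.Agent.Lib_helper90.QW

open Pool.Agent.Lib_helper8.QAA hiding sg

variable {I A : Type} [Fintype I] [DecidableEq I] [Fintype A] {p : ℕ}

lemma var_eq (f : (I → Bool) → ℝ) :
    ex (fun x => (f x - ex f) ^ 2) = ex (fun x => f x ^ 2) - ex f ^ 2 := by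
  have h2 : (fun x => (f x - ex f) ^ 2) =
      fun x => (f x ^ 2 - (2 * ex f) * f x) + ex f ^ 2 := by
    funext x; ring
  rw [h2, ex_add, ex_sub, ex_const_mul, ex_const]
  ring

/-- The acceptance probability is approximated by a decision tree of small expected depth. -/
lemma main_tree' (r : ℕ) {θ ε : ℝ} (hθ : 0 < θ)
    (hε : ∀ Q : Algorithm I A p,
      (∀ s < r, ∀ j, ex (fun x => pm (Q.look j) (Q.state s x)) ≤ θ) →
      ex (fun x => Q.prob r x ^ 2) - ex (Q.prob r) ^ 2 ≤ ε)
    (n : ℕ) : ∀ Q : Algorithm I A p, Q.act.card ≤ n →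
    ∃ g : (I → Bool) → ℝ, CompE (Q.mag r / θ) g ∧ (∀ x, |g x| ≤ 1) ∧
      ex (fun x => (Q.prob r x - g x) ^ 2) ≤ ε ∧ ∀ i ∉ Q.act, ∀ x, g (flip i x) = g x := by
  have leaf : ∀ Q : Algorithm I A p,
      (∀ s < r, ∀ j, ex (fun x => pm (Q.look j) (Q.state s x)) ≤ θ) →
      ∃ g : (I → Bool) → ℝ, CompE (Q.mag r / θ) g ∧ (∀ x, |g x| ≤ 1) ∧
      ex (fun x => (Q.prob r x - g x) ^ 2) ≤ ε ∧ ∀ i ∉ Q.act, ∀ x, g (flip i x) = g x := by
    intro Q hl
    refine ⟨fun _ => ex (Q.prob r), CompE.leaf _ _ _ (div_nonneg (mag_nonneg Q r) hθ.le)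
      (fun _ => rfl), fun _ => ?_, ?_, fun _ _ _ => rfl⟩
    · refine (abs_ex_le _).trans ?_
      have := ex_mono (abs_prob_le' Q r)
      rwa [ex_const] at this
    · rw [var_eq]
      exact hε Q hl
  induction n with
  | zero =>
    intro Q hQ
    have hact : Q.act = ∅ := Finset.card_eq_zero.1 (Nat.le_zero.1 hQ)
    refine leaf Q fun s _ j => ?_
    rw [look_eq_empty Q (by rw [hact]; simp)]
    simp only [pm, Finset.sum_empty]
    rw [ex_const]
    exact hθ.le
  | succ n ih =>
    intro Q hQ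
    by_cases hlight : ∀ s < r, ∀ j, ex (fun x => pm (Q.look j) (Q.state s x)) ≤ θ
    · exact leaf Q hlight
    · push Not at hlight
      obtain ⟨s, hs, i, hi⟩ := hlight
      have hact : i ∈ Q.act := by
        by_contra hcon
        rw [look_eq_empty Q hcon] at hi
        simp only [pm, Finset.sum_empty] at hi
        rw [ex_const] at hi
        linarith
      have hcard : ∀ b, (Q.set i b).act.card ≤ n := by
        intro b
        have h1 := Finset.card_le_card (act_set Q i b)
        rw [Finset.card_erase_of_mem hact] at h1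
        omega
      obtain ⟨g0, a1, a2, a3, a4⟩ := ih (Q.set i false) (hcard false)
      obtain ⟨g1, b1, b2, b3, b4⟩ := ih (Q.set i true) (hcard true)
      have hi0 : ∀ b, i ∉ (Q.set i b).act := fun b h =>
        (Finset.mem_erase.1 (act_set Q i b h)).1 rfl
      refine ⟨fun x => if x i then g1 x else g0 x, ?_, ?_, ?_, ?_⟩
      · refine CompE.node _ _ _ i _ g0 g1 ?_ a1 b1 (a4 i (hi0 false)) (b4 i (hi0 true))
          (fun _ => rfl)
        have h1 := mag_set Q i r
        have h2 : θ ≤ ∑ s ∈ Finset.range r, ex (fun x => pm (Q.look i) (Q.state s x)) := by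
          refine hi.le.trans ?_
          exact Finset.single_le_sum
            (f := fun s => ex (fun x => pm (Q.look i) (Q.state s x)))
            (fun _ _ => ex_nonneg' fun _ => pm_nonneg _ _) (Finset.mem_range.2 hs)
        have h3 : 1 + ((Q.set i false).mag r / θ + (Q.set i true).mag r / θ) / 2 =
            (θ + ((Q.set i false).mag r + (Q.set i true).mag r) / 2) / θ := by
          field_simp
        rw [h3, h1]
        apply div_le_div_of_nonneg_right _ hθ.le
        linarith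
      · intro x
        dsimp only
        split_ifs
        · exact b2 x
        · exact a2 x
      · have hu : ∀ (b : Bool) (x : I → Bool),
            Function.update (flip i x) i b = Function.update x i b := by
          intro b x
          simp [Pool.Agent.Lib_helper8.QAA.flip]
        have key : ex (fun x => (Q.prob r x - (if x i then g1 x else g0 x)) ^ 2) =
            (ex (fun x => ((Q.set i false).prob r x - g0 x) ^ 2) +
              ex (fun x => ((Q.set i true).prob r x - g1 x) ^ 2)) / 2 := by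
          simp_rw [set_prob]
          rw [← ex_ite (i := i)
            (F := fun x => (Q.prob r (Function.update x i false) - g0 x) ^ 2)
            (G := fun x => (Q.prob r (Function.update x i true) - g1 x) ^ 2)
            (fun x => by rw [hu, a4 i (hi0 false)]) (fun x => by rw [hu, b4 i (hi0 true)])]
          congr 1
          funext x
          cases hx : x i with
          | true => rw [← hx, Function.update_eq_self]; simp [hx]
          | false => rw [← hx, Function.update_eq_self]; simp [hx]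
        rw [key]
        linarith
      · intro j hj x
        have hji : j ≠ i := by
          rintro rfl
          exact hj hact
        have hj' : ∀ b, j ∉ (Q.set i b).act := fun b h =>
          hj (Finset.mem_erase.1 (act_set Q i b h)).2
        dsimp only
        rw [flip_apply_of_ne hji.symm, a4 j (hj' false), b4 j (hj' true)]

/-- The growth constant. -/
noncomputable def LL (p r : ℕ) : ℝ :=
  512 * p ^ 2 * r ^ 3 * √(r * p) * (4 * p * r) ^ (rate p r / 2)

/-- **The Aaronson–Ambainis inequality for quantum query algorithms**, abstract form. -/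
lemma aa_of_light {r : ℕ} (hp : 1 ≤ p) (hr : 1 ≤ r) (Q : Algorithm I A p) {v L : ℝ}
    (hv : 0 < v) (hvar : ex (fun x => Q.prob r x ^ 2) - ex (Q.prob r) ^ 2 = v) (hL : 0 < L)
    (hlight : ∀ θ : ℝ, 0 < θ → ∀ Q : Algorithm I A p,
      (∀ s < r, ∀ j, ex (fun x => pm (Q.look j) (Q.state s x)) ≤ θ) →
      ex (fun x => Q.prob r x ^ 2) - ex (Q.prob r) ^ 2 ≤ 2 * √θ * L) :
    ∃ i, v ^ 6 / (2 ^ 16 * r ^ 2 * p ^ 2 * L ^ 4) ≤
      ex (fun x =>
        ((Q.prob r x - Q.prob r (Pool.Agent.Lib_helper8.QAA.flip i x)) / 2) ^ 2) := by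
  have hp0 : (0 : ℝ) < p := by exact_mod_cast hp
  have hr0 : (0 : ℝ) < r := by exact_mod_cast hr
  set θ : ℝ := (v / (8 * L)) ^ 2 with hθ
  have hθ0 : 0 < θ := by positivity
  have hsq : √θ = v / (8 * L) := Real.sqrt_sq (by positivity)
  have hε : 2 * √θ * L = v / 4 := by
    rw [hsq]
    field_simp
    norm_num
  obtain ⟨g, h1, h2, h3, -⟩ := main_tree' (I := I) (A := A) (p := p) r (ε := v / 4) hθ0
    (fun Q hQ => (hlight θ hθ0 Q hQ).trans hε.le) Q.act.card Q le_rfl
  set B : ℝ := v * θ / (2 * r * p) with hB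
  have hB0 : 0 ≤ B := by positivity
  have hBK : B * (Q.mag r / θ) < v := by
    calc B * (Q.mag r / θ) ≤ B * (r * p / θ) := by
          have := mag_le Q r
          gcongr
      _ = v / 2 := by rw [hB]; field_simp
      _ < v := by linarith
  obtain ⟨i, hi⟩ := influence_of_compE hv hvar h1 h2 h3 hB0 hBK
  refine ⟨i, le_trans (le_of_eq ?_) hi⟩
  rw [hB, hθ]
  field_simp
  norm_num

lemma LL_pos {p r : ℕ} (hp : 1 ≤ p) (hr : 1 ≤ r) : 0 < LL p r := by
  have hp0 : (0 : ℝ) < p := by exact_mod_cast hp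
  have hr0 : (0 : ℝ) < r := by exact_mod_cast hr
  have h1 : (0 : ℝ) < (4 * p * r) ^ (rate p r / 2) := Real.rpow_pos_of_pos (by positivity) _
  have h2 : 0 < √((r : ℝ) * p) := Real.sqrt_pos.2 (by positivity)
  unfold LL
  positivity

lemma LL_le {p r : ℕ} (hp : 1 ≤ p) (hr : 1 ≤ r) :
    LL p r ≤ Real.exp (70 * Real.log (2 * p * r) ^ 2) := by
  have hp0 : (1 : ℝ) ≤ p := by exact_mod_cast hp
  have hr0 : (1 : ℝ) ≤ r := by exact_mod_cast hr
  set N : ℝ := p * r with hN
  have hN1 : 1 ≤ N := by rw [hN]; nlinarith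
  set ℓ : ℝ := Real.log (2 * N) with hℓ
  have hℓ2 : 0.69 ≤ ℓ := by
    have h1 : Real.log 2 ≤ ℓ := Real.log_le_log (by norm_num) (by linarith)
    have h2 := Real.log_two_gt_d9
    linarith
  have hN0 : 0 < 2 * N := by linarith
  have h2N : 1 ≤ 2 * N := by linarith
  have hpN : (p : ℝ) ≤ N := by rw [hN]; nlinarith
  have hrN : (r : ℝ) ≤ N := by rw [hN]; nlinarith
  -- the rate
  have hrate : rate p r / 2 ≤ 24 * ℓ + 1 / 2 := by
    unfold rate
    have h1 : 1 + 4 * (p : ℝ) * r ^ 3 ≤ (2 * N) ^ 3 := by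
      have h2 : (p : ℝ) * r ^ 3 ≤ N ^ 3 := by
        rw [hN, mul_pow]
        have h3 : (p : ℝ) ≤ p ^ 3 := by
          calc (p : ℝ) = p ^ 1 := (pow_one _).symm
            _ ≤ p ^ 3 := pow_le_pow_right₀ hp0 (by norm_num)
        gcongr
      have h4 : 1 ≤ N ^ 3 := one_le_pow₀ hN1
      calc 1 + 4 * (p : ℝ) * r ^ 3 = 1 + 4 * (p * r ^ 3) := by ring
        _ ≤ N ^ 3 + 4 * N ^ 3 := by linarith
        _ ≤ (2 * N) ^ 3 := by rw [mul_pow]; linarith
    have h2 : Real.log (1 + 4 * p * r ^ 3) ≤ 3 * ℓ := by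
      calc Real.log (1 + 4 * p * r ^ 3) ≤ Real.log ((2 * N) ^ 3) :=
            Real.log_le_log (by positivity) h1
        _ = 3 * ℓ := by rw [Real.log_pow, ← hℓ]; norm_num
    linarith
  have h1 : (4 * (p : ℝ) * r) ^ (rate p r / 2) ≤ Real.exp (48 * ℓ ^ 2 + ℓ) := by
    have h2 : 4 * (p : ℝ) * r ≤ Real.exp (2 * ℓ) := by
      have h3 : Real.exp (2 * ℓ) = (2 * N) ^ 2 := by
        rw [mul_comm, hℓ, Real.exp_mul, Real.exp_log hN0]
        norm_cast
      rw [h3, hN]
      nlinarith
    have hr0' : 0 ≤ rate p r / 2 := by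
      have := rate_ge_one p r
      linarith
    calc (4 * (p : ℝ) * r) ^ (rate p r / 2) ≤ Real.exp (2 * ℓ) ^ (rate p r / 2) :=
          Real.rpow_le_rpow (by positivity) h2 hr0'
      _ = Real.exp (2 * ℓ * (rate p r / 2)) := (Real.exp_mul _ _).symm
      _ ≤ Real.exp (2 * ℓ * (24 * ℓ + 1 / 2)) := by
          apply Real.exp_le_exp.2
          gcongr
      _ = _ := by ring_nf
  have h2 : 512 * (p : ℝ) ^ 2 * r ^ 3 * √(r * p) ≤ Real.exp (13 * ℓ) := by
    have h3 : Real.exp (13 * ℓ) = (2 * N) ^ 13 := by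
      rw [mul_comm, hℓ, Real.exp_mul, Real.exp_log hN0]
      norm_cast
    rw [h3]
    have h4 : √((r : ℝ) * p) ≤ N := by
      rw [show (r : ℝ) * p = N by rw [hN]; ring, Real.sqrt_le_left (by linarith)]
      nlinarith
    have h5 : (p : ℝ) ^ 2 * r ^ 3 ≤ N ^ 3 := by
      rw [hN, mul_pow]
      have h3 : (p : ℝ) ^ 2 ≤ p ^ 3 := pow_le_pow_right₀ hp0 (by norm_num)
      gcongr
    have h6 : N ^ 4 ≤ N ^ 13 := pow_le_pow_right₀ hN1 (by norm_num)
    calc 512 * (p : ℝ) ^ 2 * r ^ 3 * √(r * p) = 512 * ((p : ℝ) ^ 2 * r ^ 3) * √(r * p) := by ring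
      _ ≤ 512 * N ^ 3 * N := by gcongr
      _ = 512 * N ^ 4 := by ring
      _ ≤ 2 ^ 13 * N ^ 13 := by nlinarith [pow_pos (by linarith : 0 < N) 4]
      _ = (2 * N) ^ 13 := (mul_pow 2 N 13).symm
  have e0 : (2 : ℝ) * p * r = 2 * N := by rw [hN]; ring
  rw [e0, ← hℓ]
  unfold LL
  calc 512 * (p : ℝ) ^ 2 * r ^ 3 * √(r * p) * (4 * p * r) ^ (rate p r / 2)
      ≤ Real.exp (13 * ℓ) * Real.exp (48 * ℓ ^ 2 + ℓ) := by
        have : 0 ≤ (4 * (p : ℝ) * r) ^ (rate p r / 2) := Real.rpow_nonneg (by positivity) _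
        gcongr
    _ = Real.exp (48 * ℓ ^ 2 + 14 * ℓ) := by
        rw [← Real.exp_add]
        ring_nf
    _ ≤ Real.exp (70 * ℓ ^ 2) := by
        apply Real.exp_le_exp.2
        nlinarith

/-- **The Aaronson–Ambainis inequality for quantum query algorithms**, with explicit bound. -/
lemma aa_quasi {r : ℕ} (hp : 1 ≤ p) (hr : 1 ≤ r) (Q : Algorithm I A p) {v : ℝ} (hv : 0 < v)
    (hvar : ex (fun x => Q.prob r x ^ 2) - ex (Q.prob r) ^ 2 = v) :
    ∃ i, v ^ 6 / (2 ^ 16 * r ^ 2 * p ^ 2 *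
      min ((16 * (p : ℝ)) ^ (4 * r)) (Real.exp (280 * Real.log (2 * p * r) ^ 2))) ≤
      ex (fun x =>
        ((Q.prob r x - Q.prob r (Pool.Agent.Lib_helper8.QAA.flip i x)) / 2) ^ 2) := by
  have hp0 : (0 : ℝ) < p := by exact_mod_cast hp
  have hr0 : (0 : ℝ) < r := by exact_mod_cast hr
  rcases le_total ((16 * (p : ℝ)) ^ (4 * r)) (Real.exp (280 * Real.log (2 * p * r) ^ 2))
    with hmin | hmin
  · rw [min_eq_left hmin]
    obtain ⟨i, hi⟩ := aa_quantum hp hr Q hv hvar
    refine ⟨i, le_trans ?_ hi⟩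
    have hW0 : 0 < Wf r p r r 1 := by
      have h1 : Wf r p r r 0 ≤ Wf r p r r 1 := by
        unfold Wf
        refine Finset.sum_le_sum fun k _ => ?_
        have : (4 * (p : ℝ) * 0) ^ k ≤ (4 * (p : ℝ) * 1) ^ k := by
          gcongr
          norm_num
        gcongr
      rw [Wf_zero] at h1
      linarith
    have h1 : Wf r p r r 1 ^ 4 ≤ (16 * (p : ℝ)) ^ (4 * r) := by
      calc Wf r p r r 1 ^ 4 ≤ ((16 * (p : ℝ)) ^ r) ^ 4 := by
            have := Wf_le_pow hp r
            gcongr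
        _ = _ := by rw [← pow_mul, mul_comm r 4]
    gcongr
  · rw [min_eq_right hmin]
    obtain ⟨i, hi⟩ := aa_of_light hp hr Q hv hvar (LL_pos hp hr)
      (fun θ hθ Q hQ => variance_light' Q hp hr hθ hQ)
    refine ⟨i, le_trans ?_ hi⟩
    have hL := LL_le hp hr
    have hL0 := LL_pos hp hr
    have h1 : LL p r ^ 4 ≤ Real.exp (280 * Real.log (2 * p * r) ^ 2) := by
      calc LL p r ^ 4 ≤ Real.exp (70 * Real.log (2 * p * r) ^ 2) ^ 4 := by gcongr
        _ = _ := by
            rw [← Real.exp_nat_mul]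
            congr 1
            push_cast
            ring
    gcongr

end Pool.Agent.Lib_helper90.QW
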