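import Pool.Agent.Lib_helper8.QAAHybrid
import Pool.Agent.Lib_helper90.QPc.Defs

/-!
# Product tilts of a quantum query algorithm

If the uniform distribution of the input is replaced by a product distribution with means `b i`,
then the amplitude of the state in a set `T` of basis states changes by at most
`∑_{s' < s} √(2 p ∑_i b_i^2 m_i^{s'})`, where `m_i^{s'}` are the mean query magnitudes under the
UNIFORM distribution.
-/

set_option autoImplicit false
set_option linter.unusedSectionVars false

open Finset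

namespace Pool.Agent.Lib_helper90.QW

open Pool.Agent.Lib_helper8.QAA
open Pool.Agent.Lib_helper90.QPc.H8 (sg ev av)

variable {I A : Type} [Fintype I] [DecidableEq I] [Fintype A] {p : ℕ}

lemma sg_not' (b : Bool) : sg (!b) = - sg b := by cases b <;> simp [sg]

lemma sg_sq' (b : Bool) : sg b ^ 2 = 1 := by cases b <;> simp [sg]

lemma abs_sg' (b : Bool) : |sg b| = 1 := by cases b <;> simp [sg]

lemma sg_flip (i : I) (x : I → Bool) : sg (flip i x i) = - sg (x i) := by
  simp [Pool.Agent.Lib_helper8.QAA.flip, sg_not']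

/-- The `L^2` norm of a vector valued function on the cube. -/
noncomputable def nn {V : Type} [SeminormedAddCommGroup V] (F : (I → Bool) → V) : ℝ :=
  √(ex fun x => ‖F x‖ ^ 2)

lemma nn_nonneg {V : Type} [SeminormedAddCommGroup V] (F : (I → Bool) → V) : 0 ≤ nn F :=
  Real.sqrt_nonneg _

lemma ex_nonneg' {f : (I → Bool) → ℝ} (h : ∀ x, 0 ≤ f x) : 0 ≤ ex f := by
  have := ex_mono h
  rwa [ex_const] at this

lemma nn_sq {V : Type} [SeminormedAddCommGroup V] (F : (I → Bool) → V) :
    nn F ^ 2 = ex fun x => ‖F x‖ ^ 2 :=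
  Real.sq_sqrt (ex_nonneg' fun _ => by positivity)

lemma nn_mono {V V' : Type} [SeminormedAddCommGroup V] [SeminormedAddCommGroup V']
    {F : (I → Bool) → V} {G : (I → Bool) → V'} (h : ∀ x, ‖F x‖ ≤ ‖G x‖) : nn F ≤ nn G := by
  unfold nn
  apply Real.sqrt_le_sqrt
  apply ex_mono
  intro x
  have := h x
  have h0 := norm_nonneg (F x)
  gcongr

lemma nn_eq {V : Type} [SeminormedAddCommGroup V] (F : (I → Bool) → V) :
    nn F = √((2 : ℝ) ^ Fintype.card I)⁻¹ * ‖(WithLp.toLp 2 F : PiLp 2 fun _ : I → Bool => V)‖ := by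
  rw [PiLp.norm_eq_of_L2, ← Real.sqrt_mul (by positivity)]
  rfl

lemma nn_add_le {V : Type} [SeminormedAddCommGroup V] (F G : (I → Bool) → V) :
    nn (fun x => F x + G x) ≤ nn F + nn G := by
  have h := norm_add_le (WithLp.toLp 2 F : PiLp 2 fun _ : I → Bool => V)
    (WithLp.toLp 2 G : PiLp 2 fun _ : I → Bool => V)
  rw [nn_eq, nn_eq, nn_eq, ← mul_add]
  exact mul_le_mul_of_nonneg_left h (Real.sqrt_nonneg _)

/-! ### The rotation -/

/-- The rotation by `(c, s)` in the coordinate `i`, scalar version. -/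
noncomputable def rot (c s : I → ℝ) (i : I) (g : (I → Bool) → ℂ) (x : I → Bool) : ℂ :=
  (c i : ℂ) * g x + ((s i * sg (x i) : ℝ) : ℂ) * g (flip i x)

lemma norm_rot_pair (c s : I → ℝ) (h : ∀ i, c i ^ 2 + s i ^ 2 = 1) (i : I)
    (g : (I → Bool) → ℂ) (x : I → Bool) :
    ‖rot c s i g x‖ ^ 2 + ‖rot c s i g (flip i x)‖ ^ 2 = ‖g x‖ ^ 2 + ‖g (flip i x)‖ ^ 2 := by
  unfold rot
  rw [Pool.Agent.Lib_helper8.QAA.flip_flip, sg_flip]
  have h2 := sg_sq' (x i)
  set σ := sg (x i)
  rw [← Complex.normSq_eq_norm_sq, ← Complex.normSq_eq_norm_sq, ← Complex.normSq_eq_norm_sq,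
    ← Complex.normSq_eq_norm_sq]
  simp only [Complex.normSq_apply, Complex.add_re, Complex.add_im, Complex.re_ofReal_mul,
    Complex.im_ofReal_mul]
  have h3 := h i
  have e1 : c i ^ 2 + s i ^ 2 * σ ^ 2 = 1 := by rw [h2, mul_one, h3]
  linear_combination ((g x).re ^ 2 + (g x).im ^ 2 + (g (flip i x)).re ^ 2 +
    (g (flip i x)).im ^ 2) * e1

lemma ex_norm_rot (c s : I → ℝ) (h : ∀ i, c i ^ 2 + s i ^ 2 = 1) (i : I)
    (g : (I → Bool) → ℂ) : ex (fun x => ‖rot c s i g x‖ ^ 2) = ex (fun x => ‖g x‖ ^ 2) := by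
  have h1 := ex_flip (fun x => ‖rot c s i g x‖ ^ 2) i
  have h2 := ex_flip (fun x => ‖g x‖ ^ 2) i
  have h3 : ex (fun x => ‖rot c s i g x‖ ^ 2 + ‖rot c s i g (flip i x)‖ ^ 2) =
      ex (fun x => ‖g x‖ ^ 2 + ‖g (flip i x)‖ ^ 2) := by
    congr 1
    funext x
    exact norm_rot_pair c s h i g x
  rw [ex_add, ex_add, h1, h2] at h3
  linarith

/-- The composition of the rotations along a list of coordinates. -/
noncomputable def rots (c s : I → ℝ) : List I → ((I → Bool) → ℂ) → ((I → Bool) → ℂ)
  | [], g => g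
  | i :: l, g => rot c s i (rots c s l g)

lemma ex_norm_rots (c s : I → ℝ) (h : ∀ i, c i ^ 2 + s i ^ 2 = 1) (l : List I)
    (g : (I → Bool) → ℂ) : ex (fun x => ‖rots c s l g x‖ ^ 2) = ex (fun x => ‖g x‖ ^ 2) := by
  induction l with
  | nil => rfl
  | cons i l ih =>
    rw [← ih]
    exact ex_norm_rot c s h i (rots c s l g)

lemma nn_rot (c s : I → ℝ) (h : ∀ i, c i ^ 2 + s i ^ 2 = 1) (i : I)
    (g : (I → Bool) → ℂ) : nn (rot c s i g) = nn g := by
  unfold nn
  rw [ex_norm_rot c s h i g]

lemma nn_rots (c s : I → ℝ) (h : ∀ i, c i ^ 2 + s i ^ 2 = 1) (l : List I)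
    (g : (I → Bool) → ℂ) : nn (rots c s l g) = nn g := by
  unfold nn
  rw [ex_norm_rots c s h l g]

lemma rot_add (c s : I → ℝ) (i : I) (g g' : (I → Bool) → ℂ) :
    rot c s i (fun x => g x + g' x) = fun x => rot c s i g x + rot c s i g' x := by
  funext x
  unfold rot
  ring

lemma rot_sub (c s : I → ℝ) (i : I) (g g' : (I → Bool) → ℂ) :
    rot c s i (fun x => g x - g' x) = fun x => rot c s i g x - rot c s i g' x := by
  funext x
  unfold rot
  ring

lemma rot_mul (c s : I → ℝ) (i : I) (k : ℂ) (g : (I → Bool) → ℂ) :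
    rot c s i (fun x => k * g x) = fun x => k * rot c s i g x := by
  funext x
  unfold rot
  ring

lemma rot_sum (c s : I → ℝ) (i : I) {κ : Type} (S : Finset κ) (g : κ → (I → Bool) → ℂ) :
    rot c s i (fun x => ∑ k ∈ S, g k x) = fun x => ∑ k ∈ S, rot c s i (g k) x := by
  funext x
  unfold rot
  rw [Finset.mul_sum, Finset.mul_sum, ← Finset.sum_add_distrib]

lemma rots_mul (c s : I → ℝ) (l : List I) (k : ℂ) (g : (I → Bool) → ℂ) :
    rots c s l (fun x => k * g x) = fun x => k * rots c s l g x := by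
  induction l with
  | nil => rfl
  | cons i l ih => simp only [rots]; rw [ih, rot_mul]

lemma rots_sum (c s : I → ℝ) (l : List I) {κ : Type} (S : Finset κ)
    (g : κ → (I → Bool) → ℂ) :
    rots c s l (fun x => ∑ k ∈ S, g k x) = fun x => ∑ k ∈ S, rots c s l (g k) x := by
  induction l with
  | nil => rfl
  | cons i l ih => simp only [rots]; rw [ih, rot_sum]

/-- The commutator of the rotations with multiplication by a function of few coordinates. -/
lemma nn_comm_le (c s : I → ℝ) (h : ∀ i, c i ^ 2 + s i ^ 2 = 1) (φ : (I → Bool) → ℂ)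
    (hφ : ∀ x, ‖φ x‖ ≤ 1) (S : Finset I)
    (hS : ∀ x y : I → Bool, (∀ i ∈ S, x i = y i) → φ x = φ y) (l : List I)
    (g : (I → Bool) → ℂ) :
    nn (fun x => rots c s l (fun y => φ y * g y) x - φ x * rots c s l g x) ≤
      (l.map fun i => if i ∈ S then 2 * |s i| else 0).sum * nn g := by
  induction l with
  | nil => simp [rots, nn, ex]
  | cons i l ih =>
    have h1 : (fun x => rots c s (i :: l) (fun y => φ y * g y) x - φ x * rots c s (i :: l) g x) =
        fun x => rot c s i (fun x => rots c s l (fun y => φ y * g y) x - φ x * rots c s l g x) x +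
          ((s i * sg (x i) : ℝ) : ℂ) * ((φ (flip i x) - φ x) * rots c s l g (flip i x)) := by
      funext x
      simp only [rots]
      rw [rot_sub]
      simp only [rot]
      ring
    rw [h1]
    refine (nn_add_le _ _).trans ?_
    rw [nn_rot c s h, List.map_cons, List.sum_cons, add_comm, add_mul]
    refine add_le_add ?_ ih
    split_ifs with hi
    · have h2 : nn (fun x => ((s i * sg (x i) : ℝ) : ℂ) *
          ((φ (flip i x) - φ x) * rots c s l g (flip i x))) ≤
          nn (fun x => ((2 * |s i| : ℝ) : ℂ) * rots c s l g (flip i x)) := by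
        apply nn_mono
        intro x
        rw [norm_mul, norm_mul, norm_mul]
        have e1 : ‖((s i * sg (x i) : ℝ) : ℂ)‖ = |s i| := by
          rw [Complex.norm_real, Real.norm_eq_abs, abs_mul, abs_sg', mul_one]
        have e2 : ‖((2 * |s i| : ℝ) : ℂ)‖ = 2 * |s i| := by
          rw [Complex.norm_real, Real.norm_eq_abs, abs_of_nonneg (by positivity)]
        have e3 : ‖φ (flip i x) - φ x‖ ≤ 2 := by
          refine (norm_sub_le _ _).trans ?_
          linarith [hφ x, hφ (flip i x)]
        rw [e1, e2]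
        calc |s i| * (‖φ (flip i x) - φ x‖ * ‖rots c s l g (flip i x)‖)
            ≤ |s i| * (2 * ‖rots c s l g (flip i x)‖) := by gcongr
          _ = _ := by ring
      refine h2.trans (le_of_eq ?_)
      have h3 : nn (fun x => ((2 * |s i| : ℝ) : ℂ) * rots c s l g (flip i x)) =
          2 * |s i| * nn (rots c s l g) := by
        unfold nn
        have e2 : ∀ x : I → Bool, ‖((2 * |s i| : ℝ) : ℂ) * rots c s l g (flip i x)‖ ^ 2 =
            (2 * |s i|) ^ 2 * ‖rots c s l g (flip i x)‖ ^ 2 := by
          intro x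
          rw [norm_mul, Complex.norm_real, Real.norm_eq_abs,
            abs_of_nonneg (by positivity : (0 : ℝ) ≤ 2 * |s i|), mul_pow]
        simp_rw [e2]
        rw [ex_const_mul, ex_flip (fun x => ‖rots c s l g x‖ ^ 2) i,
          Real.sqrt_mul (by positivity), Real.sqrt_sq (by positivity)]
      rw [h3, nn_rots c s h]
    · have h2 : (fun x => ((s i * sg (x i) : ℝ) : ℂ) *
          ((φ (flip i x) - φ x) * rots c s l g (flip i x))) = fun _ => 0 := by
        funext x
        have h3 : φ (flip i x) = φ x := by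
          apply hS
          intro j hj
          rw [flip_apply_of_ne]
          rintro rfl
          exact hi hj
        rw [h3]
        ring
      rw [h2]
      simp [nn, ex]

/-! ### The vector valued rotation -/

/-- All rotations, applied to a vector valued function. -/
noncomputable def WW (c s : I → ℝ) (F : (I → Bool) → EuclideanSpace ℂ A) (x : I → Bool) :
    EuclideanSpace ℂ A :=
  WithLp.toLp 2 fun a => rots c s (Finset.univ : Finset I).toList (fun y => F y a) x

lemma WW_apply (c s : I → ℝ) (F : (I → Bool) → EuclideanSpace ℂ A) (x : I → Bool) (a : A) :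
    WW c s F x a = rots c s (Finset.univ : Finset I).toList (fun y => F y a) x := rfl

lemma ex_sum' {J : Type} (S : Finset J) (f : J → (I → Bool) → ℝ) :
    ex (fun x => ∑ j ∈ S, f j x) = ∑ j ∈ S, ex (f j) := by
  unfold ex
  rw [Finset.sum_comm, Finset.mul_sum]

lemma ex_pm_WW (c s : I → ℝ) (h : ∀ i, c i ^ 2 + s i ^ 2 = 1) (T : Finset A)
    (F : (I → Bool) → EuclideanSpace ℂ A) :
    ex (fun x => pm T (WW c s F x)) = ex (fun x => pm T (F x)) := by
  unfold pm
  rw [ex_sum', ex_sum']
  refine Finset.sum_congr rfl fun a _ => ?_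
  simp_rw [WW_apply]
  exact ex_norm_rots c s h _ _

/-- The matrix entries of a linear map. -/
lemma clm_apply [DecidableEq A] (L : EuclideanSpace ℂ A →L[ℂ] EuclideanSpace ℂ A)
    (v : EuclideanSpace ℂ A) (a : A) :
    L v a = ∑ b, L (EuclideanSpace.single b 1) a * v b := by
  have h1 : v = ∑ b, v b • EuclideanSpace.single b (1 : ℂ) := by
    ext a'
    rw [WithLp.ofLp_sum, Finset.sum_apply, Finset.sum_eq_single a']
    · simp
    · intro b _ hb
      simp [Ne.symm hb]
    · simp
  conv_lhs => rw [h1, map_sum]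
  rw [WithLp.ofLp_sum, Finset.sum_apply]
  refine Finset.sum_congr rfl fun b _ => ?_
  rw [map_smul, PiLp.smul_apply, smul_eq_mul, mul_comm]

lemma WW_clm (c s : I → ℝ) (L : EuclideanSpace ℂ A →L[ℂ] EuclideanSpace ℂ A)
    (F : (I → Bool) → EuclideanSpace ℂ A) (x : I → Bool) :
    WW c s (fun y => L (F y)) x = L (WW c s F x) := by
  classical
  ext a
  rw [WW_apply, clm_apply L (WW c s F x) a]
  have h1 : (fun y => L (F y) a) = fun y => ∑ b, L (EuclideanSpace.single b 1) a * F y b := by
    funext y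
    exact clm_apply L (F y) a
  rw [h1, rots_sum]
  refine Finset.sum_congr rfl fun b _ => ?_
  rw [rots_mul]
  rfl

/-- The commutator with the oracle. -/
lemma ex_comm_oracle (Q : Algorithm I A p) (c s : I → ℝ) (h : ∀ i, c i ^ 2 + s i ^ 2 = 1)
    (F : (I → Bool) → EuclideanSpace ℂ A) :
    ex (fun x => ‖WW c s (fun y => Q.oracle y (F y)) x - Q.oracle x (WW c s F x)‖ ^ 2) ≤
      4 * p * ∑ i, s i ^ 2 * ex (fun x => pm (Q.look i) (F x)) := by
  have h1 : ∀ x, ‖WW c s (fun y => Q.oracle y (F y)) x - Q.oracle x (WW c s F x)‖ ^ 2 =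
      ∑ a, ‖rots c s (Finset.univ : Finset I).toList (fun y => Q.phase a y * F y a) x -
        Q.phase a x * rots c s (Finset.univ : Finset I).toList (fun y => F y a) x‖ ^ 2 := by
    intro x
    rw [norm_sq_eq]
    rfl
  simp_rw [h1]
  rw [ex_sum']
  have h2 : ∀ a, ex (fun x =>
      ‖rots c s (Finset.univ : Finset I).toList (fun y => Q.phase a y * F y a) x -
        Q.phase a x * rots c s (Finset.univ : Finset I).toList (fun y => F y a) x‖ ^ 2) ≤
      4 * p * ∑ i ∈ Q.query a, s i ^ 2 * ex (fun x => ‖F x a‖ ^ 2) := by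
    intro a
    have h3 := nn_comm_le c s h (Q.phase a) (Q.norm_phase_le a) (Q.query a)
      (fun x y hxy => Q.phase_congr a x y hxy) (Finset.univ : Finset I).toList (fun y => F y a)
    have h4 : ((Finset.univ : Finset I).toList.map
        fun i => if i ∈ Q.query a then 2 * |s i| else 0).sum = ∑ i ∈ Q.query a, 2 * |s i| := by
      rw [Finset.sum_map_toList, ← Finset.sum_filter]
      congr 1
      ext i
      simp
    rw [h4] at h3
    have h5 := nn_sq (fun x =>
      rots c s (Finset.univ : Finset I).toList (fun y => Q.phase a y * F y a) x -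
        Q.phase a x * rots c s (Finset.univ : Finset I).toList (fun y => F y a) x)
    rw [← h5]
    have h6 : (∑ i ∈ Q.query a, 2 * |s i|) ^ 2 ≤ 4 * p * ∑ i ∈ Q.query a, s i ^ 2 := by
      have h7 := sq_sum_le_card_mul_sum_sq (s := Q.query a) (f := fun i => 2 * |s i|)
      refine h7.trans ?_
      have h8 : ((Q.query a).card : ℝ) ≤ p := by exact_mod_cast Q.card_query_le a
      have h9 : ∑ i ∈ Q.query a, (2 * |s i|) ^ 2 = 4 * ∑ i ∈ Q.query a, s i ^ 2 := by
        rw [Finset.mul_sum]
        refine Finset.sum_congr rfl fun i _ => ?_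
        rw [mul_pow, sq_abs]
        norm_num
      rw [h9]
      have h10 : 0 ≤ ∑ i ∈ Q.query a, s i ^ 2 := Finset.sum_nonneg fun _ _ => by positivity
      calc ((Q.query a).card : ℝ) * (4 * ∑ i ∈ Q.query a, s i ^ 2)
          ≤ p * (4 * ∑ i ∈ Q.query a, s i ^ 2) := by gcongr
        _ = _ := by ring
    calc _ ≤ ((∑ i ∈ Q.query a, 2 * |s i|) * nn (fun y => F y a)) ^ 2 := by
          have := nn_nonneg (fun x =>
            rots c s (Finset.univ : Finset I).toList (fun y => Q.phase a y * F y a) x -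
            Q.phase a x * rots c s (Finset.univ : Finset I).toList (fun y => F y a) x)
          gcongr
      _ = (∑ i ∈ Q.query a, 2 * |s i|) ^ 2 * ex (fun x => ‖F x a‖ ^ 2) := by
          rw [mul_pow, nn_sq]
      _ ≤ (4 * p * ∑ i ∈ Q.query a, s i ^ 2) * ex (fun x => ‖F x a‖ ^ 2) := by
          have : 0 ≤ ex (fun x => ‖F x a‖ ^ 2) := ex_nonneg' fun _ => by positivity
          gcongr
      _ = _ := by rw [← Finset.sum_mul]; ring
  refine (Finset.sum_le_sum fun a _ => h2 a).trans (le_of_eq ?_)
  rw [← Finset.mul_sum]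
  congr 1
  unfold pm Algorithm.look
  simp_rw [ex_sum', Finset.mul_sum]
  have e1 : ∀ a, ∑ i ∈ Q.query a, s i ^ 2 * ex (fun x => ‖F x a‖ ^ 2) =
      ∑ i, if i ∈ Q.query a then s i ^ 2 * ex (fun x => ‖F x a‖ ^ 2) else 0 := by
    intro a
    rw [← Finset.sum_filter]
    congr 1
    ext i
    simp
  simp_rw [e1]
  rw [Finset.sum_comm]
  refine Finset.sum_congr rfl fun i _ => ?_
  rw [Finset.sum_filter]

/-! ### The tilt -/

/-- The square root of the density. -/
noncomputable def dens (c s : I → ℝ) (x : I → Bool) : ℝ := ∏ i, (c i + s i * sg (x i))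

lemma rots_const (c s : I → ℝ) (l : List I) (hl : l.Nodup) (k : ℂ) (x : I → Bool) :
    rots c s l (fun _ => k) x = (((l.map fun i => c i + s i * sg (x i)).prod : ℝ) : ℂ) * k := by
  induction l generalizing x with
  | nil => simp [rots]
  | cons i l ih =>
    obtain ⟨hi, hl'⟩ := List.nodup_cons.1 hl
    simp only [rots, rot, List.map_cons, List.prod_cons]
    rw [ih hl' x, ih hl' (flip i x)]
    have h1 : (l.map fun j => c j + s j * sg (flip i x j)) =
        l.map fun j => c j + s j * sg (x j) := by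
      apply List.map_congr_left
      intro j hj
      rw [flip_apply_of_ne]
      rintro rfl
      exact hi hj
    rw [h1]
    push_cast
    ring

lemma WW_const (c s : I → ℝ) (v : EuclideanSpace ℂ A) (x : I → Bool) :
    WW c s (fun _ => v) x = ((dens c s x : ℝ) : ℂ) • v := by
  ext a
  rw [WW_apply, rots_const c s _ (Finset.nodup_toList _), PiLp.smul_apply, smul_eq_mul]
  unfold dens
  rw [Finset.prod_map_toList]

/-- The hybrid argument for the tilt. -/
lemma nn_tilt_le (Q : Algorithm I A p) (c s : I → ℝ) (h : ∀ i, c i ^ 2 + s i ^ 2 = 1) (t : ℕ) :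
    nn (fun x => ((dens c s x : ℝ) : ℂ) • Q.state t x - WW c s (Q.state t) x) ≤
      ∑ t' ∈ Finset.range t,
        √(4 * p * ∑ i, s i ^ 2 * ex (fun x => pm (Q.look i) (Q.state t' x))) := by
  induction t with
  | zero =>
    have h1 : (fun x => ((dens c s x : ℝ) : ℂ) • Q.state 0 x - WW c s (Q.state 0) x) =
        fun _ => 0 := by
      funext x
      have : WW c s (Q.state 0) x = ((dens c s x : ℝ) : ℂ) • Q.init := WW_const c s Q.init x
      rw [this]
      simp [Algorithm.state]
    rw [h1]
    simp [nn, ex]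
  | succ t ih =>
    rw [Finset.sum_range_succ]
    have h1 : ∀ x, ((dens c s x : ℝ) : ℂ) • Q.state (t + 1) x - WW c s (Q.state (t + 1)) x =
        Q.step t (Q.oracle x (((dens c s x : ℝ) : ℂ) • Q.state t x - WW c s (Q.state t) x) +
          (Q.oracle x (WW c s (Q.state t) x) -
            WW c s (fun y => Q.oracle y (Q.state t y)) x)) := by
      intro x
      have e1 : WW c s (Q.state (t + 1)) x =
          Q.step t (WW c s (fun y => Q.oracle y (Q.state t y)) x) := by
        rw [← WW_clm]
        rfl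
      have e2 : ((dens c s x : ℝ) : ℂ) • Q.state (t + 1) x =
          Q.step t (((dens c s x : ℝ) : ℂ) • Q.oracle x (Q.state t x)) := by
        rw [map_smul]
        rfl
      rw [e1, e2, ← map_sub]
      congr 1
      ext a
      simp only [Algorithm.oracle, PiLp.sub_apply, PiLp.add_apply, PiLp.smul_apply, smul_eq_mul]
      ring
    calc nn (fun x => ((dens c s x : ℝ) : ℂ) • Q.state (t + 1) x - WW c s (Q.state (t + 1)) x)
        ≤ nn (fun x => Q.oracle x (((dens c s x : ℝ) : ℂ) • Q.state t x -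
            WW c s (Q.state t) x) +
          (Q.oracle x (WW c s (Q.state t) x) -
            WW c s (fun y => Q.oracle y (Q.state t y)) x)) := by
          apply nn_mono
          intro x
          rw [h1]
          exact Q.norm_step_le t _
      _ ≤ nn (fun x => Q.oracle x (((dens c s x : ℝ) : ℂ) • Q.state t x -
            WW c s (Q.state t) x)) +
          nn (fun x => Q.oracle x (WW c s (Q.state t) x) -
            WW c s (fun y => Q.oracle y (Q.state t y)) x) := nn_add_le _ _
      _ ≤ _ := by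
          refine add_le_add ?_ ?_
          · exact (nn_mono fun x => norm_oracle_le Q x _).trans ih
          · unfold nn
            apply Real.sqrt_le_sqrt
            refine le_trans (le_of_eq ?_) (ex_comm_oracle Q c s h (Q.state t))
            congr 1
            funext x
            rw [norm_sub_rev]

/-- A rotation with a given double angle. -/
lemma exists_rot {b : ℝ} (hb : |b| ≤ 1) :
    ∃ c s : ℝ, c ^ 2 + s ^ 2 = 1 ∧ 2 * c * s = b ∧ s ^ 2 ≤ b ^ 2 / 2 := by
  obtain ⟨h1, h2⟩ := abs_le.1 hb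
  refine ⟨Real.cos (Real.arcsin b / 2), Real.sin (Real.arcsin b / 2), ?_, ?_, ?_⟩
  · rw [add_comm, Real.sin_sq_add_cos_sq]
  · have h3 := Real.sin_two_mul (Real.arcsin b / 2)
    rw [mul_div_cancel₀ _ (by norm_num : (2 : ℝ) ≠ 0), Real.sin_arcsin h1 h2] at h3
    linarith
  · rw [Real.sin_sq_eq_half_sub, mul_div_cancel₀ _ (by norm_num : (2 : ℝ) ≠ 0),
      Real.cos_arcsin]
    have h3 : 0 ≤ 1 - b ^ 2 := by nlinarith
    have h4 : 1 - b ^ 2 ≤ √(1 - b ^ 2) := by
      apply Real.le_sqrt_of_sq_le
      nlinarith [sq_nonneg b]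
    linarith

/-- **The tilt inequality.** -/
theorem tilt (Q : Algorithm I A p) {b : I → ℝ} (hb : ∀ i, |b i| ≤ 1) (T : Finset A) (t : ℕ) :
    √(ev b (fun x => pm T (Q.state t x))) ≤ √(ex (fun x => pm T (Q.state t x))) +
      ∑ t' ∈ Finset.range t,
        √(2 * p * ∑ i, b i ^ 2 * ex (fun x => pm (Q.look i) (Q.state t' x))) := by
  choose c s h1 h2 h3 using fun i => exists_rot (hb i)
  have hd : ∀ x, dens c s x ^ 2 = ∏ i, (1 + b i * sg (x i)) := by
    intro x
    unfold dens
    rw [← Finset.prod_pow]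
    refine Finset.prod_congr rfl fun i _ => ?_
    have h4 := sg_sq' (x i)
    linear_combination h1 i + sg (x i) * h2 i + (s i) ^ 2 * h4
  have e1 : ev b (fun x => pm T (Q.state t x)) =
      nn (fun x => proj T (((dens c s x : ℝ) : ℂ) • Q.state t x)) ^ 2 := by
    rw [nn_sq]
    unfold ev av ex
    congr 1
    refine Finset.sum_congr rfl fun x _ => ?_
    dsimp only
    rw [norm_proj_sq, ← hd x]
    unfold pm
    rw [Finset.sum_mul]
    refine Finset.sum_congr rfl fun a _ => ?_
    rw [PiLp.smul_apply, smul_eq_mul, norm_mul, mul_pow, Complex.norm_real, Real.norm_eq_abs,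
      sq_abs, mul_comm]
  have e2 : ex (fun x => pm T (Q.state t x)) =
      nn (fun x => proj T (WW c s (Q.state t) x)) ^ 2 := by
    rw [nn_sq]
    simp_rw [norm_proj_sq]
    exact (ex_pm_WW c s h1 T _).symm
  rw [e1, e2, Real.sqrt_sq (nn_nonneg _), Real.sqrt_sq (nn_nonneg _)]
  have h4 : ∀ x, proj T (((dens c s x : ℝ) : ℂ) • Q.state t x) =
      proj T (WW c s (Q.state t) x) +
        proj T (((dens c s x : ℝ) : ℂ) • Q.state t x - WW c s (Q.state t) x) := by
    intro x
    ext a
    simp only [proj, PiLp.add_apply, PiLp.sub_apply, PiLp.smul_apply]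
    split_ifs
    · ring
    · simp
  simp_rw [h4]
  refine (nn_add_le _ _).trans ?_
  refine add_le_add le_rfl ?_
  calc nn (fun x => proj T (((dens c s x : ℝ) : ℂ) • Q.state t x - WW c s (Q.state t) x))
      ≤ nn (fun x => ((dens c s x : ℝ) : ℂ) • Q.state t x - WW c s (Q.state t) x) := by
        apply nn_mono
        intro x
        apply abs_le_of_sq_le_sq' _ (norm_nonneg _) |>.2
        rw [norm_proj_sq]
        exact pm_le T _
    _ ≤ _ := nn_tilt_le Q c s h1 t
    _ ≤ _ := by
        refine Finset.sum_le_sum fun t' _ => Real.sqrt_le_sqrt ?_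
        have h5 : ∑ i, s i ^ 2 * ex (fun x => pm (Q.look i) (Q.state t' x)) ≤
            ∑ i, (b i ^ 2 / 2) * ex (fun x => pm (Q.look i) (Q.state t' x)) := by
          refine Finset.sum_le_sum fun i _ => ?_
          have := ex_nonneg' (fun x => pm_nonneg (Q.look i) (Q.state t' x))
          have h6 := h3 i
          gcongr
        calc 4 * p * ∑ i, s i ^ 2 * ex (fun x => pm (Q.look i) (Q.state t' x))
            ≤ 4 * p * ∑ i, (b i ^ 2 / 2) * ex (fun x => pm (Q.look i) (Q.state t' x)) := by
              gcongr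
          _ = _ := by
              rw [Finset.mul_sum, Finset.mul_sum]
              refine Finset.sum_congr rfl fun i _ => ?_
              ring

end Pool.Agent.Lib_helper90.QW
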